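import Pool.Agent.Lib.MP_8ac08c_co.OE.Stm
import Pool.Agent.Lib.MP_8ac08c_co.Explicit
import Pool.Agent.Lib.MP_8ac08c_co.RankTwo

/-!
# MP_8ac08c_co, project OE: further small pieces about `eta`

Every piece is a theorem `p_xxx : S_xxx` in the file `OE/P/xxx.lean` (`import
Pool.Agent.Lib.MP_8ac08c_co.OE.Stm2`, namespace `Pool.Agent.Lib.MP_8ac08c_co.OE`).
-/

set_option autoImplicit false

open Finset

namespace Pool.Agent.Lib.MP_8ac08c_co.OE

open Pool.Agent.Lib.MP_8ac08c_co Pool.Agent.Lib.MP_8ac08c_co.OD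

/-- [OE eta5] PROOF. `d = |dbl K|`, `|K| = 4 d`, `κ + 4 ≤ 3 d`. `K / dbl K` has four elements, `2 v = 0` for all `v`, so it is
`C_2²`; let `a, b ∈ K` represent two different nonzero classes; `a + b` represents the third one. Each of the cosets
`a + dbl K`, `b + dbl K`, `a + b + dbl K` has `d` elements. Let `d'` be the largest odd number `≤ d`; `3 d' ≥ 3 d - 3 ≥ κ + 1`.
Choose `n₁, n₂, n₃` odd, at most `d'`, with the sum `κ + 1`: `(κ - 1, 1, 1)` if `κ - 1 ≤ d'`; `(d', κ - d', 1)` if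
`d' < κ - 1` and `κ ≤ 2 d'`; `(d', d', κ + 1 - 2 d')` if `κ > 2 d'`. Let `T` be the union of sets of `n₁`, `n₂`, `n₃` elements of the
three cosets, `#T = κ + 1`. `∑_T x ≡ n₁ a + n₂ b + n₃ (a + b) ≡ 0` modulo `dbl K`, since `n₁ + n₃` and `n₂ + n₃` are even
(`2 a, 2 b ∈ dbl K`). A subset `B ⊆ T` with `κ` elements is `T \ {x}` with the sum `≡ - x`, not in `dbl K`.
`le_eta` (`Basic.lean`). -/
def S_eta5 : Prop := ∀ (G : Type) [AddCommGroup G] [Fintype G] (K : AddSubgroup G) (κ : ℕ),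
  Nat.card K = 4 * Nat.card (dbl K) → Even κ → 0 < κ → 4 * (κ + 4) ≤ 3 * Nat.card K →
  κ + 1 ≤ eta K κ

/-- [OE lowb] PROOF. `κ` is the exponent of `G`. As in `OD/P/low2.lean` (`low2_surj`, private, copy it) there is a
surjective homomorphism `ψ : G → ZMod κ`. `b > 0`. Let `φ : G → ZMod b` be the composition with `ZMod κ → ZMod b`
(`b ∣ κ`), `K` its kernel, of index `b`. If `x + x = 0` then `ψ x + ψ x = 0` in `ZMod κ`, so `ψ x` is `0` or `κ / 2`, and its
image in `ZMod b` is `0` because `b ∣ κ / 2`; so `x ∈ K`. The map `x ↦ x + x` from `K` onto `dbl K` has the kernel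
`{x | x + x = 0}`, so `|K| = #{x | x + x = 0} |dbl K|`. `Nat.log 2 b ≤ dis (G ⧸ K)` as in `low2_dis` in
`OD/P/low2.lean` (or by `log_le_dis` in `Explicit.lean`). -/
def S_lowb : Prop := S_chr → ∀ (G : Type) [AddCommGroup G] [Fintype G] [DecidableEq G] (b : ℕ),
  2 * b ∣ AddMonoid.exponent G → ∃ K : AddSubgroup G, b * Nat.card K = Nat.card G ∧
    Nat.card K = #(univ.filter fun x : G => x + x = 0) * Nat.card (dbl K) ∧
    Nat.log 2 b ≤ dis (G ⧸ K)

/-- [OE eta6] PROOF. As `two_classes` and `eta_le_even` in `Explicit.lean`; there the hypothesis on the number of `x` with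
`2 x = 0` is used only to get `|K| ≤ 2 |dbl K|`. -/
def S_eta6 : Prop := ∀ (G : Type) [AddCommGroup G] [Fintype G] (K : AddSubgroup G) (κ : ℕ),
  Nat.card K ≤ 2 * Nat.card (dbl K) → Even κ → 0 < κ → eta K κ ≤ κ

/-- [OE eta7] PROOF. Let `T` be as in `exists_eta`; if `#T ≥ κ = |K|` then `T` consists of all elements of `K`, and
`s = ∑_{x ∈ K} x ∉ dbl K` (`B = T`). But `s ∈ dbl K`: the elements of `dbl K` have their sum in `dbl K`. If `dbl K = K` we are
done. Otherwise `|K| = 2 |dbl K|` and for a fixed `u ∈ K`, `u ∉ dbl K`, all elements of `K \ dbl K` are in `u + dbl K` (index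
two), so their sum is `≡ (|K| / 2) u` modulo `dbl K` (`sum_sub_card_smul` in `Final.lean`), which is in `dbl K` because
`|K| / 2` is even (`nsmul_even_mem` in `CaseA.lean`). -/
def S_eta7 : Prop := ∀ (G : Type) [AddCommGroup G] [Fintype G] (K : AddSubgroup G) (κ : ℕ),
  Nat.card K ≤ 2 * Nat.card (dbl K) → Nat.card K = κ → 4 ∣ κ → eta K κ ≤ κ - 1

/-- [OE eta8] PROOF. Otherwise the set `T` from `exists_eta` has a subset `B` with `κ` elements, with a sum in
`K = dbl K`. -/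
def S_eta8 : Prop := ∀ (G : Type) [AddCommGroup G] [Fintype G] (K : AddSubgroup G) (κ : ℕ),
  dbl K = K → 0 < κ → eta K κ ≤ κ - 1

/-- [OE dk4] PROOF. `|dbl K|` divides `|K|`, `|K| = i |dbl K|`, `2 < i ≤ 4`. If `i = 3` then `K / dbl K` has order `3` and an
element of order `3`, but all its elements are killed by `2`. -/
def S_dk4 : Prop := ∀ (G : Type) [AddCommGroup G] [Fintype G] (K : AddSubgroup G),
  Nat.card K ≤ 4 * Nat.card (dbl K) → 2 * Nat.card (dbl K) < Nat.card K →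
  Nat.card K = 4 * Nat.card (dbl K)

/-- [OE dk2] PROOF. `|dbl K|` divides `|K|`, and `dbl K ≠ K`. -/
def S_dk2 : Prop := ∀ (G : Type) [AddCommGroup G] [Fintype G] (K : AddSubgroup G),
  Nat.card K ≤ 2 * Nat.card (dbl K) → dbl K ≠ K → Nat.card K = 2 * Nat.card (dbl K)

end Pool.Agent.Lib.MP_8ac08c_co.OE
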