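import Pool.Agent.Lib.MP_8ac08c_co.OD.All
import Pool.Agent.Lib.MP_8ac08c_co.OE.Stm2
import Pool.Agent.Lib.MP_8ac08c_co.OE.P.cov2
import Pool.Agent.Lib.MP_8ac08c_co.OE.P.st2
import Pool.Agent.Lib.MP_8ac08c_co.OE.P.lin2
import Pool.Agent.Lib.MP_8ac08c_co.OE.P.cc2
import Pool.Agent.Lib.MP_8ac08c_co.OE.P.inv2
import Pool.Agent.Lib.MP_8ac08c_co.OE.P.ivh2
import Pool.Agent.Lib.MP_8ac08c_co.OE.P.sml2
import Pool.Agent.Lib.MP_8ac08c_co.OE.P.big2
import Pool.Agent.Lib.MP_8ac08c_co.OE.P.rel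
import Pool.Agent.Lib.MP_8ac08c_co.OE.P.drop
import Pool.Agent.Lib.MP_8ac08c_co.OE.P.sol
import Pool.Agent.Lib.MP_8ac08c_co.OE.P.enl
import Pool.Agent.Lib.MP_8ac08c_co.OE.P.beta
import Pool.Agent.Lib.MP_8ac08c_co.OE.P.occ
import Pool.Agent.Lib.MP_8ac08c_co.OE.P.fail
import Pool.Agent.Lib.MP_8ac08c_co.OE.P.gap
import Pool.Agent.Lib.MP_8ac08c_co.OE.P.den
import Pool.Agent.Lib.MP_8ac08c_co.OE.P.finU
import Pool.Agent.Lib.MP_8ac08c_co.OE.P.finV
import Pool.Agent.Lib.MP_8ac08c_co.OE.P.bs12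
import Pool.Agent.Lib.MP_8ac08c_co.OE.P.bs42
import Pool.Agent.Lib.MP_8ac08c_co.OE.P.bs22
import Pool.Agent.Lib.MP_8ac08c_co.OE.P.fin22
import Pool.Agent.Lib.MP_8ac08c_co.OE.P.prt2
import Pool.Agent.Lib.MP_8ac08c_co.OE.P.asm2
import Pool.Agent.Lib.MP_8ac08c_co.OE.P.eta4
import Pool.Agent.Lib.MP_8ac08c_co.OE.P.low4
import Pool.Agent.Lib.MP_8ac08c_co.OE.P.low2
import Pool.Agent.Lib.MP_8ac08c_co.OE.P.eta5
import Pool.Agent.Lib.MP_8ac08c_co.OE.P.lowb
import Pool.Agent.Lib.MP_8ac08c_co.OE.P.eta6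
import Pool.Agent.Lib.MP_8ac08c_co.OE.P.eta7
import Pool.Agent.Lib.MP_8ac08c_co.OE.P.eta8
import Pool.Agent.Lib.MP_8ac08c_co.OE.P.dk4
import Pool.Agent.Lib.MP_8ac08c_co.OE.P.dk2

/-!
# MP_8ac08c_co, project OE: the final theorem
-/

set_option autoImplicit false
set_option exponentiation.threshold 600

open Finset

namespace Pool.Agent.Lib.MP_8ac08c_co.OE

open Pool.Agent.Lib.MP_8ac08c_co Pool.Agent.Lib.MP_8ac08c_co.OD


theorem all_inv2 : C_inv2 := p_inv2 p_ols p_st2 p_par p_fou p_chr p_lin2 p_cc2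

theorem all_ivh2 : C_ivh2 := p_ivh2 all_inv2

theorem all_sml2 : C_sml2 := p_sml2 p_ols p_cov2 p_rob

theorem all_big2 : C_big2 := p_big2 p_rob all_sml2 all_ivh2

theorem all_bs12 : C_bs12 := p_bs12 p_rob p_dif

theorem all_bs22 : C_bs22 := p_bs22 p_ols p_cov2 p_dif

/-- `Good` gives solutions -/
theorem all_good (G : Type) [AddCommGroup G] [Fintype G] [DecidableEq G] (κ h t u : ℕ)
    (hy : HypE G κ h t) (hκ : 2 ^ 500 ≤ κ) (h1 : κ + t ≤ u) (h2 : u ≤ κ + t + 2)
    (hg : Good G κ t u) (A : Finset G) (hA : #A = u) : Sol A κ := by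
  have h100 : 2 ^ 100 ≤ κ := le_trans (by norm_num) hκ
  rcases all_big2 G κ h t u hy h100 (by omega) h2 hg A hA with h3 | ⟨V, H, H', w, hV, hc, hs⟩
  · exact h3
  · exact p_asm2 all_bs12 p_bs42 all_bs22 p_dif p_bs3 p_sge p_fin22 p_prt2 G κ h t hy hκ A V H H'
      w (by omega) (by omega) hV hc hs

theorem all_solU (G : Type) [AddCommGroup G] [Fintype G] [DecidableEq G] (κ h t u : ℕ)
    (hy : HypE G κ h t) (hκ : 2 ^ 500 ≤ κ) (h1 : κ + t + 1 ≤ u) (h2 : u ≤ κ + t + 2)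
    (hs : u = κ + t + 1 → ¬ Spec G κ t 1) (A : Finset G) (hA : #A = u) : Sol A κ :=
  all_good G κ h t u hy hκ (by omega) h2
    (p_finU p_rel p_drop p_sol p_enl p_beta p_occ p_fail G κ h t u hy
      (le_trans (by norm_num) hκ) h1 h2 hs) A hA

theorem all_solV (G : Type) [AddCommGroup G] [Fintype G] [DecidableEq G] (κ h t : ℕ)
    (hy : HypE G κ h t) (hκ : 2 ^ 500 ≤ κ)
    (h2 : #(univ.filter fun x : G => x + x = 0) ≤ 2) (hd : h ∣ κ)
    (hs : ¬ Spec G κ t 0) (A : Finset G) (hA : #A = κ + t) : Sol A κ :=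
  all_good G κ h t (κ + t) hy hκ le_rfl (by omega)
    (p_finV p_rel p_drop p_sol p_enl p_beta p_occ p_fail p_gap p_den G κ h t hy hκ h2 hd hs) A hA

/-- solutions for all sets with `u` elements bound `tau` -/
theorem tau_lt_of_sol (G : Type) [AddCommGroup G] [Fintype G] [DecidableEq G] (κ u : ℕ)
    (hκ : 0 < κ) (h : ∀ A : Finset G, #A = u → Sol A κ) : tau G κ < u := by
  obtain ⟨A, hA, hAc⟩ := exists_tau (G := G) hκ
  by_contra hcon
  push Not at hcon
  obtain ⟨B, hBA, hB⟩ := exists_subset_card_eq (n := u) (s := A) (by omega)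
  obtain ⟨P, N, hP, hN, hd, hc, hs⟩ := h B hB
  apply hA
  refine ⟨P, N, hP.trans hBA, hN.trans hBA, hd, hc, ?_⟩
  rw [AddSubgroup.mem_bot, hs, sub_self]

theorem lowK (G : Type) [AddCommGroup G] [Fintype G] (κ n : ℕ) (hκ : 0 < κ) (K : AddSubgroup G)
    (a b : ℕ) (ha : a ≤ eta K κ) (hb : b ≤ dis (G ⧸ K)) (hn : n ≤ a + b) : n ≤ tau G κ := by
  have := lower K hκ
  omega

theorem trivial_eta (G : Type) [AddCommGroup G] [Fintype G] (K : AddSubgroup G) (κ : ℕ)
    (hK : κ ≤ Nat.card K) (hpos : 0 < κ) : κ - 1 ≤ eta K κ := by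
  classical
  obtain ⟨T, hT, hTc⟩ : ∃ T ⊆ univ.filter (fun x : G => x ∈ K), #T = κ - 1 := by
    apply exists_subset_card_eq
    have : κ ≤ #(univ.filter (fun x : G => x ∈ K)) := by
      rw [← Fintype.card_subtype, ← Nat.card_eq_fintype_card]
      exact hK
    omega
  rw [← hTc]
  apply le_eta
  · intro t ht
    exact (mem_filter.1 (hT ht)).2
  · intro B hB hc
    have := card_le_card hB
    omega

/-- upper bounds, even exponent -/
theorem upper (G : Type) [AddCommGroup G] [Fintype G] [DecidableEq G] (κ h t : ℕ)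
    (hy : HypE G κ h t) (hκ : 2 ^ 500 ≤ κ) :
    tau G κ ≤ κ + 1 + t ∧ (¬ Spec G κ t 1 → tau G κ ≤ κ + t) ∧
    (#(univ.filter fun x : G => x + x = 0) ≤ 2 → h ∣ κ → ¬ Spec G κ t 0 →
      tau G κ ≤ κ - 1 + t) := by
  have hκ0 : 0 < κ := lt_of_lt_of_le (by positivity) hκ
  refine ⟨?_, ?_, ?_⟩
  · have := tau_lt_of_sol G κ (κ + t + 2) hκ0 fun A hA =>
      all_solU G κ h t (κ + t + 2) hy hκ (by omega) le_rfl (by omega) A hA
    omega
  · intro hs
    have := tau_lt_of_sol G κ (κ + t + 1) hκ0 fun A hA =>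
      all_solU G κ h t (κ + t + 1) hy hκ le_rfl (by omega) (fun _ => hs) A hA
    omega
  · intro h2 hd hs
    have := tau_lt_of_sol G κ (κ + t) hκ0 fun A hA => all_solV G κ h t hy hκ h2 hd hs A hA
    omega


theorem card_tors (G : Type) [AddCommGroup G] [Fintype G]
    [DecidablePred fun x : G => x + x = 0] :
    #(univ.filter fun x : G => x + x = 0) = Nat.card {x : G // x + x = 0} := by
  rw [Nat.card_eq_fintype_card, Fintype.card_subtype]

theorem tors_le (G : Type) [AddCommGroup G] [Fintype G] [DecidableEq G] (n : ℕ)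
    (h : #(univ.filter fun x : G => x + x = 0) ≤ n) (K : AddSubgroup G) :
    Nat.card K ≤ n * Nat.card (dbl K) := by
  refine (card_le_dbl' K).trans (Nat.mul_le_mul_right _ ?_)
  rw [card_tors] at h ⊢
  exact h

/-- the structure `HypE` -/
theorem hypE (G : Type) [AddCommGroup G] [Fintype G] [DecidableEq G] (κ h t ρ : ℕ)
    (hκ : κ = AddMonoid.exponent G) (hcard : Nat.card G = h * κ) (ht : t = Nat.log 2 h)
    (h2 : #(univ.filter fun x : G => x + x = 0) = 2 ^ ρ) (hρ : 1 ≤ ρ) (hρ2 : ρ ≤ 2)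
    (hle : h ≤ κ) : HypE G κ h t := by
  have hh0 : 0 < h := by
    rcases Nat.eq_zero_or_pos h with h0 | h0
    · rw [h0, zero_mul] at hcard
      have := Nat.card_pos (α := G)
      omega
    · exact h0
  refine
    { even := ?_
      card := hcard
      le := hle
      exp := fun x => by rw [hκ]; exact AddMonoid.exponent_nsmul_eq_zero x
      lt := by rw [ht]; exact Nat.lt_pow_succ_log_self (by norm_num) h
      ge := by rw [ht]; exact Nat.pow_log_le_self 2 (by omega)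
      two := ?_ }
  · by_contra hodd
    rw [Nat.not_even_iff_odd] at hodd
    have h1 : (univ.filter fun x : G => x + x = 0) ⊆ {0} := by
      intro x hx
      rw [mem_filter] at hx
      rw [mem_singleton]
      obtain ⟨k, hk⟩ := hodd
      have h3 : κ • x = 0 := by rw [hκ]; exact AddMonoid.exponent_nsmul_eq_zero x
      rw [hk, add_smul, one_smul, mul_comm, mul_smul, two_nsmul, hx.2, smul_zero, zero_add] at h3
      exact h3
    have h3 := card_le_card h1
    rw [h2, card_singleton] at h3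
    have h4 : 2 ^ 1 ≤ 2 ^ ρ := Nat.pow_le_pow_right (by norm_num) hρ
    omega
  · rw [h2]
    calc 2 ^ ρ ≤ 2 ^ 2 := Nat.pow_le_pow_right (by norm_num) hρ2
      _ = 4 := by norm_num

/-- the lower bounds for `ρ = 1` -/
theorem low_one (G : Type) [AddCommGroup G] [Fintype G] [DecidableEq G] (κ h t b : ℕ)
    (hκ : κ = AddMonoid.exponent G) (hκ0 : 0 < κ) (hcard : Nat.card G = h * κ)
    (h2 : #(univ.filter fun x : G => x + x = 0) = 2)
    (hb : 2 * b ∣ κ) (hbt : 2 ^ t ≤ b) (hbh : b < h) : κ + t ≤ tau G κ := by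
  obtain ⟨K, hK1, hK2, hK3⟩ := p_lowb p_chr G b (by rw [← hκ]; exact hb)
  have hb0 : 0 < b := lt_of_lt_of_le (by positivity) hbt
  have hKκ : κ < Nat.card K := by
    by_contra hcon
    push Not at hcon
    have h3 : b * Nat.card K ≤ b * κ := Nat.mul_le_mul_left _ hcon
    have h4 : b * κ < h * κ := Nat.mul_lt_mul_of_pos_right hbh hκ0
    omega
  have hne : dbl K ≠ K := by
    intro heq
    rw [heq, h2] at hK2
    omega
  have h3 := eta_ge_room hκ0 hKκ hne
  have h4 : t ≤ Nat.log 2 b := Nat.le_log_of_pow_le (by norm_num) hbt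
  exact lowK G κ (κ + t) hκ0 K κ t h3 (h4.trans hK3) le_rfl

/-- the lower bounds for `ρ = 2` -/
theorem low_two (G : Type) [AddCommGroup G] [Fintype G] [DecidableEq G] (κ h s b : ℕ)
    (hκ : κ = AddMonoid.exponent G) (hκ0 : 0 < κ) (hcard : Nat.card G = h * κ)
    (h2 : #(univ.filter fun x : G => x + x = 0) = 4)
    (hb : 2 * b ∣ κ) (hbt : 2 ^ s ≤ b) (hbh : 4 * b * (κ + 4) ≤ 3 * h * κ) :
    κ + 1 + s ≤ tau G κ := by
  obtain ⟨K, hK1, hK2, hK3⟩ := p_lowb p_chr G b (by rw [← hκ]; exact hb)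
  have hb0 : 0 < b := lt_of_lt_of_le (by positivity) hbt
  rw [h2] at hK2
  have hev : Even κ := by
    obtain ⟨c, hc⟩ := hb
    exact ⟨b * c, by rw [hc]; ring⟩
  have h3 : 4 * (κ + 4) ≤ 3 * Nat.card K := by
    have h4 : b * (4 * (κ + 4)) ≤ b * (3 * Nat.card K) := by
      calc b * (4 * (κ + 4)) = 4 * b * (κ + 4) := by ring
        _ ≤ 3 * h * κ := hbh
        _ = 3 * Nat.card G := by rw [hcard]; ring
        _ = b * (3 * Nat.card K) := by rw [← hK1]; ring
    exact Nat.le_of_mul_le_mul_left h4 hb0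
  have h5 := p_eta5 G K κ hK2 hev hκ0 h3
  have h4 : s ≤ Nat.log 2 b := Nat.le_log_of_pow_le (by norm_num) hbt
  exact lowK G κ (κ + 1 + s) hκ0 K (κ + 1) s h5 (h4.trans hK3) le_rfl

/-- no special subgroup, `ρ = 1` -/
theorem not_spec_one (G : Type) [AddCommGroup G] [Fintype G] [DecidableEq G] (κ h t : ℕ)
    (hκ0 : 0 < κ) (hcard : Nat.card G = h * κ)
    (h2 : #(univ.filter fun x : G => x + x = 0) ≤ 2) (h4 : 4 ∣ κ)
    (hno : ∀ i, 2 * i ∣ h * κ → 2 ^ t ≤ i → h ≤ i) : ¬ Spec G κ t 0 := by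
  classical
  rintro ⟨K, hK, heta, hdis⟩
  rw [add_zero] at heta
  have hne : dbl K ≠ K := by
    intro heq
    have := p_eta8 G K κ heq hκ0
    omega
  have hle : Nat.card K ≤ 2 * Nat.card (dbl K) := tors_le G 2 h2 K
  have hK2 := p_dk2 G K hle hne
  have h1 : Nat.card K * K.index = h * κ := by rw [AddSubgroup.card_mul_index, hcard]
  have h3 : 2 * K.index ∣ h * κ := by
    rw [← h1, hK2]
    exact ⟨Nat.card (dbl K), by ring⟩
  have h5 : 2 ^ t ≤ K.index := by
    let _ : Fintype (G ⧸ K) := Fintype.ofFinite _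
    exact (Nat.pow_le_pow_right (by norm_num) hdis).trans two_pow_dis_le
  have h6 := hno K.index h3 h5
  have h7 : Nat.card K ≤ κ := by
    by_contra hcon
    push Not at hcon
    have h8 : h * κ < K.index * Nat.card K := by
      have hh0 : 0 < K.index := lt_of_lt_of_le (by positivity) h5
      calc h * κ ≤ K.index * κ := Nat.mul_le_mul_right _ h6
        _ < K.index * Nat.card K := Nat.mul_lt_mul_of_pos_left hcon hh0
    rw [mul_comm] at h1
    omega
  have h8 := p_eta7 G K κ hle (le_antisymm h7 hK) h4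
  omega

/-- no special subgroup, `ρ = 2` -/
theorem not_spec_two (G : Type) [AddCommGroup G] [Fintype G] [DecidableEq G] (κ h t : ℕ)
    (hκ0 : 0 < κ) (hev : Even κ) (hcard : Nat.card G = h * κ)
    (h2 : #(univ.filter fun x : G => x + x = 0) ≤ 4)
    (hno : ∀ i, 4 * i ∣ h * κ → 2 ^ t ≤ i → 3 * h * κ < 4 * i * (κ + 1)) : ¬ Spec G κ t 1 := by
  classical
  rintro ⟨K, hK, heta, hdis⟩
  have hle : Nat.card K ≤ 4 * Nat.card (dbl K) := tors_le G 4 h2 K
  have hne : 2 * Nat.card (dbl K) < Nat.card K := by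
    by_contra hcon
    push Not at hcon
    have := p_eta6 G K κ hcon hev hκ0
    omega
  have hK4 := p_dk4 G K hle hne
  have h1 : Nat.card K * K.index = h * κ := by rw [AddSubgroup.card_mul_index, hcard]
  have h3 : 4 * K.index ∣ h * κ := by
    rw [← h1, hK4]
    exact ⟨Nat.card (dbl K), by ring⟩
  have h5 : 2 ^ t ≤ K.index := by
    let _ : Fintype (G ⧸ K) := Fintype.ofFinite _
    exact (Nat.pow_le_pow_right (by norm_num) hdis).trans two_pow_dis_le
  have h6 := hno K.index h3 h5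
  have h7 : 4 * κ < 3 * Nat.card K := by
    by_contra hcon
    push Not at hcon
    have := eta_le_three hκ0 hle hcon
    omega
  have h8 : 4 * (κ + 1) ≤ 3 * Nat.card K := by omega
  have h9 : 4 * K.index * (κ + 1) ≤ 3 * h * κ := by
    calc 4 * K.index * (κ + 1) = K.index * (4 * (κ + 1)) := by ring
      _ ≤ K.index * (3 * Nat.card K) := Nat.mul_le_mul_left _ h8
      _ = 3 * (Nat.card K * K.index) := by ring
      _ = 3 * h * κ := by rw [h1]; ring
  omega

/-- `Spec` gives a lower bound -/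
theorem spec_low (G : Type) [AddCommGroup G] [Fintype G] (κ t e : ℕ)
    (hs : Spec G κ t e) : ∃ K : AddSubgroup G, κ ≤ Nat.card K ∧
      κ + e + t ≤ eta K κ + dis (G ⧸ K) := by
  obtain ⟨K, hK, h1, h2⟩ := hs
  exact ⟨K, hK, by omega⟩

/-- A large value of one of the lower bounds is the maximum. -/
theorem greatest (G : Type) [AddCommGroup G] [Fintype G] (κ n : ℕ) (hκ0 : 0 < κ)
    (hup : tau G κ ≤ n) (hex : ∃ K : AddSubgroup G, κ ≤ Nat.card K ∧
      n ≤ eta K κ + dis (G ⧸ K)) :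
    IsGreatest {m | ∃ K : AddSubgroup G, κ ≤ Nat.card K ∧ m = eta K κ + dis (G ⧸ K)}
      (tau G κ) := by
  obtain ⟨K, hK, hn⟩ := hex
  have h1 := lower K hκ0
  refine ⟨⟨K, hK, by omega⟩, ?_⟩
  rintro m ⟨K', _, rfl⟩
  exact lower K' hκ0

/-- the main theorem -/
theorem main (G : Type) [AddCommGroup G] [Finite G] (κ h t ρ : ℕ)
    (hκ : κ = AddMonoid.exponent G) (hcard : Nat.card G = h * κ) (ht : t = Nat.log 2 h)
    (h2' : Nat.card {x : G // x + x = 0} = 2 ^ ρ) (hρ : ρ ≤ 2) (hbig : 2 ^ 500 ≤ κ)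
    (hle : h ≤ κ) :
    tau G κ ≤ κ - 1 + ρ + t ∧
    (∀ d, d ∣ κ → 2 ^ t ≤ d → d ≤ h → κ - 1 + t ≤ tau G κ ∧
      (ρ = 2 → Even d → κ + t ≤ tau G κ)) ∧
    (h ∣ κ → (ρ = 2 → Even h) ∧ IsGreatest {m | ∃ K : AddSubgroup G, κ ≤ Nat.card K ∧
      m = eta K κ + dis (G ⧸ K)} (tau G κ)) ∧
    (ρ = 1 → ∀ b, 2 * b ∣ κ → 2 ^ t ≤ b → b < h → tau G κ = κ + t) ∧
    (ρ = 1 → h ∣ κ → κ % 4 = 2 → tau G κ = κ + t) ∧
    (ρ = 1 → h ∣ κ → 4 ∣ κ → (∀ i, 2 * i ∣ h * κ → 2 ^ t ≤ i → h ≤ i) →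
      tau G κ = κ - 1 + t) ∧
    (ρ = 2 → ∀ b, 2 * b ∣ κ → 2 ^ t ≤ b → 4 * b * (κ + 4) ≤ 3 * h * κ →
      tau G κ = κ + t + 1) ∧
    (ρ = 2 → (∀ i, 4 * i ∣ h * κ → 2 ^ t ≤ i → 3 * h * κ < 4 * i * (κ + 1)) →
      tau G κ ≤ κ + t) := by
  classical
  have : Fintype G := Fintype.ofFinite G
  have hκ0 : 0 < κ := lt_of_lt_of_le (by positivity) hbig
  have hh0 : 0 < h := by
    rcases Nat.eq_zero_or_pos h with h0 | h0
    · rw [h0, zero_mul] at hcard
      have := Nat.card_pos (α := G)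
      omega
    · exact h0
  have h2 : #(univ.filter fun x : G => x + x = 0) = 2 ^ ρ := by
    rw [← h2', Nat.card_eq_fintype_card, Fintype.card_subtype]
  have hth : 2 ^ t ≤ h := by rw [ht]; exact Nat.pow_log_le_self 2 (by omega)
  have hht : h < 2 ^ (t + 1) := by rw [ht]; exact Nat.lt_pow_succ_log_self (by norm_num) h
  have hd1 : ∀ d, d ∣ κ → 2 ^ t ≤ d → d ≤ h → κ - 1 + t ≤ tau G κ := by
    intro d hd hdt hdh
    have h3 := low_dvd p_chr G d (by rw [← hκ]; exact hd)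
      (by rw [← hκ, hcard]; exact Nat.mul_le_mul_right κ hdh)
    rw [← hκ] at h3
    have h4 : t ≤ Nat.log 2 d := Nat.le_log_of_pow_le (by norm_num) hdt
    omega
  have hlow2 : h ∣ κ → ∃ K : AddSubgroup G, κ = Nat.card K ∧ t ≤ dis (G ⧸ K) := by
    intro hdvd
    obtain ⟨K, hK1, hK2⟩ := p_low2 p_chr G h (by rw [← hκ]; exact hcard)
      (by rw [← hκ]; exact hdvd)
    exact ⟨K, by rw [hK1, hκ], by rw [ht]; exact hK2⟩
  have hg0 : h ∣ κ → tau G κ ≤ κ - 1 + t →
      IsGreatest {m | ∃ K : AddSubgroup G, κ ≤ Nat.card K ∧ m = eta K κ + dis (G ⧸ K)}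
        (tau G κ) := by
    intro hdvd hup
    obtain ⟨K, hK1, hK2⟩ := hlow2 hdvd
    have h5 := trivial_eta G K κ hK1.le hκ0
    exact greatest G κ (κ - 1 + t) hκ0 hup ⟨K, hK1.le, by omega⟩
  have hcases : ρ = 0 ∨ ρ = 1 ∨ ρ = 2 := by omega
  rcases hcases with rfl | rfl | rfl
  · -- odd order
    rw [pow_zero] at h2
    have hoddG : Odd (Nat.card G) := by
      by_contra hcon
      rw [Nat.not_odd_iff_even] at hcon
      have : Fact (Nat.Prime 2) := ⟨Nat.prime_two⟩
      obtain ⟨x, hx⟩ := exists_prime_addOrderOf_dvd_card' (G := G) 2 hcon.two_dvd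
      have h3 : x + x = 0 := by
        rw [← two_nsmul, ← hx]
        exact addOrderOf_nsmul_eq_zero x
      have h4 : x ≠ 0 := by
        rintro rfl
        rw [addOrderOf_zero] at hx
        omega
      have h5 : ({0, x} : Finset G) ⊆ univ.filter fun x : G => x + x = 0 := by
        intro y hy
        rw [mem_insert, mem_singleton] at hy
        rw [mem_filter]
        rcases hy with rfl | rfl
        · exact ⟨mem_univ _, add_zero 0⟩
        · exact ⟨mem_univ _, h3⟩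
      have h6 := card_le_card h5
      rw [card_pair (Ne.symm h4), h2] at h6
      omega
    have hdiv : Nat.card G / AddMonoid.exponent G = h := by
      rw [hcard, ← hκ]
      exact Nat.mul_div_cancel _ hκ0
    have h3 := (all_main G hoddG (by rw [← hκ]; exact hbig) (by
      rw [← hκ, hcard, sq]; exact Nat.mul_le_mul_right κ hle)).1
    rw [hdiv, ← ht, ← hκ] at h3
    refine ⟨by omega, fun d hd hdt hdh => ⟨hd1 d hd hdt hdh, fun h0 => by omega⟩,
      fun hdvd => ⟨fun h0 => by omega, hg0 hdvd h3⟩, fun h0 => by omega, fun h0 => by omega,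
      fun h0 => by omega, fun h0 => by omega, fun h0 => by omega⟩
  · -- one involution
    have hy : HypE G κ h t := hypE G κ h t 1 hκ hcard ht h2 le_rfl (by omega) hle
    rw [pow_one] at h2
    obtain ⟨_, _, hV⟩ := upper G κ h t hy hbig
    have hu1 : tau G κ ≤ κ + t := by
      have := (upper G κ h t hy hbig).2.1 ?_
      · exact this
      · rintro ⟨K, hK, heta, hdis⟩
        have h3 : eta K κ ≤ κ := p_eta6 G K κ (tors_le G 2 h2.le K) hy.even hκ0
        omega
    refine ⟨by omega, fun d hd hdt hdh => ⟨hd1 d hd hdt hdh, fun h0 => by omega⟩,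
      fun hdvd => ⟨fun h0 => by omega, ?_⟩, ?_, ?_, ?_, fun h0 => by omega,
      fun h0 => by omega⟩
    · by_cases hs : Spec G κ t 0
      · obtain ⟨K, hK, h3⟩ := spec_low G κ t 0 hs
        exact greatest G κ (κ + t) hκ0 hu1 ⟨K, hK, by omega⟩
      · exact hg0 hdvd (hV h2.le hdvd hs)
    · intro _ b hb hbt hbh
      exact le_antisymm hu1 (low_one G κ h t b hκ hκ0 hcard h2 hb hbt hbh)
    · intro _ hdvd hmod
      refine le_antisymm hu1 ?_
      obtain ⟨K, hK1, hK2⟩ := hlow2 hdvd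
      have h3 : κ ≤ eta K κ := eta_ge_two_mod_four hK1.symm hmod (by
        have h5 := h2.le
        rw [card_tors] at h5 ⊢
        exact h5)
      exact lowK G κ (κ + t) hκ0 K κ t h3 hK2 le_rfl
    · intro _ hdvd h4 hno
      exact le_antisymm (hV h2.le hdvd (not_spec_one G κ h t hκ0 hcard h2.le h4 hno))
        (hd1 h hdvd hth le_rfl)
  · -- four elements killed by two
    have hy : HypE G κ h t := hypE G κ h t 2 hκ hcard ht h2 (by omega) le_rfl hle
    have h2 : #(univ.filter fun x : G => x + x = 0) = 4 := by rw [h2]; norm_num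
    obtain ⟨hU2, hU1, _⟩ := upper G κ h t hy hbig
    have hd2 : ∀ d, d ∣ κ → 2 ^ t ≤ d → d ≤ h → Even d → κ + t ≤ tau G κ := by
      intro d hd hdt hdh hdev
      obtain ⟨b, hb⟩ := hdev
      have hd0 : 0 < d := lt_of_lt_of_le (by positivity) hdt
      have ht1 : 1 ≤ t := by
        by_contra hcon
        have : t = 0 := by omega
        rw [this] at hht
        omega
      have h3 := low_two G κ h (t - 1) b hκ hκ0 hcard h2 (by
          have e : 2 * b = d := by omega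
          rw [e]; exact hd) (by
          have e : 2 ^ t = 2 ^ (t - 1) * 2 := by rw [← pow_succ]; congr 1; omega
          omega) (by
          have h5 : 8 ≤ κ := le_trans (by norm_num) hbig
          calc 4 * b * (κ + 4) = 2 * d * (κ + 4) := by rw [hb]; ring
            _ ≤ 2 * h * (κ + 4) := Nat.mul_le_mul_right _ (Nat.mul_le_mul_left _ hdh)
            _ = h * (2 * κ + 8) := by ring
            _ ≤ h * (3 * κ) := Nat.mul_le_mul_left _ (by omega)
            _ = 3 * h * κ := by ring)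
      omega
    refine ⟨by omega, fun d hd hdt hdh => ⟨hd1 d hd hdt hdh, fun _ hdev =>
      hd2 d hd hdt hdh hdev⟩, ?_, fun h0 => by omega, fun h0 => by omega, fun h0 => by omega,
      ?_, ?_⟩
    · intro hdvd
      obtain ⟨hev, K4, hK41, hK42, hK43⟩ := p_low4 p_chr G h (by rw [← hκ]; exact hcard)
        (by rw [← hκ]; exact hdvd) h2
      refine ⟨fun _ => hev, ?_⟩
      by_cases hs : Spec G κ t 1
      · obtain ⟨K, hK, h3⟩ := spec_low G κ t 1 hs
        exact greatest G κ (κ + 1 + t) hκ0 hU2 ⟨K, hK, by omega⟩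
      · rw [← hκ] at hK41
        have h3 : κ + 1 ≤ eta K4 κ := p_eta4 G K4 κ hK42 hK41 (le_trans (by norm_num) hbig)
        have h4 : t ≤ Nat.log 2 (h / 2) + 1 := by
          rw [Nat.log_div_base, ← ht]
          omega
        exact greatest G κ (κ + t) hκ0 (hU1 hs) ⟨K4, by omega, by omega⟩
    · intro _ b hb hbt hbh
      have h3 := low_two G κ h t b hκ hκ0 hcard h2 hb hbt hbh
      omega
    · intro _ hno
      exact hU1 (not_spec_two G κ h t hκ0 hy.even hcard h2.le hno)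

end Pool.Agent.Lib.MP_8ac08c_co.OE
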