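import Mathlib
import Pool.Agent.Lib.MP_8ac08c_co.Def
import Pool.Agent.Lib.MP_8ac08c_co.Basic
import Pool.Agent.Lib.MP_8ac08c_co.Cover
import Pool.Agent.Lib.MP_8ac08c_co.OD.Defs

/-!
# MP_8ac08c_co, project OE: the signed Harborth constant of groups of even order with `|G| ≤ κ²`
and at most four elements `x` with `2 x = 0`

Definitions. `dbl K = 2 K` (`Basic.lean`), `SG W`, `Sol A κ`, `Lg w s Z` (`OD/Defs.lean`), `bd S x`
(`Cover.lean`).
-/

set_option autoImplicit false

open Finset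

namespace Pool.Agent.Lib.MP_8ac08c_co.OE

open Pool.Agent.Lib.MP_8ac08c_co Pool.Agent.Lib.MP_8ac08c_co.OD

/-- The general setting: `G` has order `h κ`, `κ G = 0`, `κ` even, `h ≤ κ`, `t = ⌊log₂ h⌋`, and at most
four elements `x` with `2 x = 0`. -/
structure HypE (G : Type) [AddCommGroup G] [Fintype G] [DecidableEq G] (κ h t : ℕ) : Prop where
  even : Even κ
  card : Nat.card G = h * κ
  le : h ≤ κ
  exp : ∀ x : G, κ • x = 0
  lt : h < 2 ^ (t + 1)
  ge : 2 ^ t ≤ h
  two : #(univ.filter fun x : G => x + x = 0) ≤ 4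

/-- The signed sums of all the elements of `R` contain a coset of `M`. -/
def Cov {G : Type} [AddCommGroup G] [DecidableEq G] (R : Finset G) (M : AddSubgroup G) : Prop :=
  ∃ r ∈ SG R, ∀ z ∈ M, r + z ∈ SG R

/-- The sums `∑_{x ∈ P} f x` for `P ⊆ U`. -/
def FS {ι Γ : Type} [AddCommGroup Γ] [DecidableEq Γ] [DecidableEq ι] (f : ι → Γ)
    (U : Finset ι) : Finset Γ :=
  U.powerset.image fun P => ∑ x ∈ P, f x

/-- A signed sum of the values of `q` at all the elements of `W` is `0`. -/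
def Rel {ι Q : Type} [AddCommGroup Q] [DecidableEq ι] (q : ι → Q) (W : Finset ι) : Prop :=
  ∃ P N : Finset ι, Disjoint P N ∧ P ∪ N = W ∧ ∑ x ∈ P, q x = ∑ x ∈ N, q x

/-- The elements of `A` in `K`. -/
noncomputable def InK {G : Type} [AddCommGroup G] (A : Finset G) (K : AddSubgroup G) : Finset G :=
  by classical exact A.filter fun x => x ∈ K

theorem mem_InK {G : Type} [AddCommGroup G] {A : Finset G} {K : AddSubgroup G} {x : G} :
    x ∈ InK A K ↔ x ∈ A ∧ x ∈ K := by
  classical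
  unfold InK
  rw [mem_filter]

theorem InK_subset {G : Type} [AddCommGroup G] (A : Finset G) (K : AddSubgroup G) :
    InK A K ⊆ A := fun _ hx => (mem_InK.1 hx).1

/-- A coset of `2 K` is covered by elements of `A ∩ K`, even if a set `J` of at most `q` elements,
at most two of them outside `B₀`, is forbidden. -/
def CovP {G : Type} [AddCommGroup G] [DecidableEq G] (A B₀ : Finset G) (K : AddSubgroup G)
    (q : ℕ) : Prop :=
  ∀ J ⊆ A, #(J \ B₀) ≤ 2 → #J ≤ q → ∃ R ⊆ A \ J, (∀ x ∈ R, x ∈ K) ∧ Cov R (dbl K)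

/-- Every set `A` with `u` elements, most of which lie in a group `K₀` which they generate and whose
double is covered robustly by a few of them, has a solution. -/
def Good (G : Type) [AddCommGroup G] [Fintype G] [DecidableEq G] (κ t u : ℕ) : Prop :=
  ∀ (A : Finset G) (K₀ : AddSubgroup G), #A = u → 91 * κ ≤ 100 * #(InK A K₀) →
    AddSubgroup.closure (InK A K₀ : Set G) = K₀ →
    (∀ J ⊆ A, #J ≤ t + 4 → ∃ R ⊆ A \ J, (∀ x ∈ R, x ∈ K₀) ∧ Cov R (dbl K₀)) → Sol A κ

/-- There is a subgroup `K` with at least `κ` elements, `eta K κ ≥ κ + e` and `dis (G / K) ≥ t`. -/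
def Spec (G : Type) [AddCommGroup G] (κ t e : ℕ) : Prop :=
  ∃ K : AddSubgroup G, κ ≤ Nat.card K ∧ κ + e ≤ eta K κ ∧ t ≤ dis (G ⧸ K)

/-- What the maximal covered subgroup `K` satisfies. -/
structure Enl {G : Type} [AddCommGroup G] [DecidableEq G] (A B₀ : Finset G)
    (K : AddSubgroup G) (q : ℕ) : Prop where
  sub : ∀ x ∈ B₀, x ∈ K
  gen : AddSubgroup.closure (InK A K : Set G) = K
  cov : CovP A B₀ K q
  star : ∀ w ∈ A, w ∉ K → w + w ∈ K → w + w ∉ dbl K
  few : ∀ w ∈ A, w ∉ K → w + w ∈ K → ∀ a b c : G, a ∈ A → b ∈ A → c ∈ A → a - w ∈ K →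
    b - w ∈ K → c - w ∈ K → a = b ∨ a = c ∨ b = c

/-- The elements of `V ⊆ H` have small weights `w`; integer combinations of `V` of weight `0` are
in the small subgroup `H'`; `H` is generated by `V`, even after removing a few elements. -/
structure Strip2 {G : Type} [AddCommGroup G] [DecidableEq G] (V : Finset G)
    (H H' : AddSubgroup G) (w : G → ℤ) (κ : ℕ) : Prop where
  rob : ∀ V' ⊆ V, 2 ^ 12 * #(V \ V') ≤ κ → AddSubgroup.closure (V' : Set G) = H
  wt : ∀ a ∈ V, (w a).natAbs ≤ 2 ^ 85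
  ker : ∀ n : G → ℤ, ∑ a ∈ V, n a * w a = 0 → ∑ a ∈ V, n a • a ∈ H'
  card' : Nat.card H' ≤ 2 ^ 85 * κ
  card : κ ^ 2 < 20000 * Nat.card H

end Pool.Agent.Lib.MP_8ac08c_co.OE
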