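import Pool.Agent.Lib.MP_8ac08c_co.OE.Defs
import Pool.Agent.Lib.MP_8ac08c_co.OD.Stm

/-!
# MP_8ac08c_co, project OE: groups of even order, `|G| ≤ κ²`, at most four `x` with `2 x = 0`

Statements of the pieces, with complete proofs in words. Every piece is a theorem `p_xxx : S_xxx` in
the file `OE/P/xxx.lean` (namespace `Pool.Agent.Lib.MP_8ac08c_co.OE`, `import
Pool.Agent.Lib.MP_8ac08c_co.OE.Stm`). Many pieces are small changes of pieces of project OD, whose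
files `OD/P/yyy.lean` may be copied and adapted (this is said in the doc strings).

The theorem: `|G| = h κ`, `h ≤ κ`, `2^t ≤ h < 2^(t+1)`, `κ` even. A set `A` with `κ + t + 1` elements
has `κ` elements with a signed sum `0`, unless `Spec G κ t 1` holds; with `κ + t + 2` elements always;
and if there are at most two `x` with `2 x = 0` and `h ∣ κ`, then a set with `κ + t` elements does,
unless `Spec G κ t 0` holds. Structure of the proof: as in OD either few elements of `A` cover a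
coset of `2 K` by their signed sums, where `K` contains most of `A` (`cov2`, `sml2`, `big2`), and
then a largest signed zero-sum modulo `K` outside `K` is completed by elements of `K` (`rel`, `drop`,
`sol`, `enl`, `fail`, `beta`, `den`, `finU`, `finV`), or most of `A` has bounded values under a
character (`st2`, `lin2`, `cc2`, `inv2`, `ivh2`), and a bounded structure modulo `2 L` gives a solution
(`bs12`, `bs42`, `bs22`, `prt2`, `fin22`, `asm2`).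
-/

set_option autoImplicit false
set_option exponentiation.threshold 600

open Finset

namespace Pool.Agent.Lib.MP_8ac08c_co.OE

open Pool.Agent.Lib.MP_8ac08c_co Pool.Agent.Lib.MP_8ac08c_co.OD

/-! ## A. Covering and the inverse theorem -/

/-- [OE cov2] (Compare `OD/P/cov.lean`, the same proof in the group `dbl L` instead of `L`.) Covering a
coset of `2 L` by the signed sums of few small sets (gadgets) `D`. PROOF. Let `N = |2 L|`. Keep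
`R ⊆ Y`, `r ∈ SG R`, `r ∈ L` and a finite `S ⊆ 2 L` with `0 ∈ S` and `r + S ⊆ SG R`; start with `R = ∅`, `r = 0`,
`S = {0}`. As long as `S ≠ 2 L` and `#R ≤ b`: take `C` from the hypothesis for `U = R`. In the group
`2 L` (a type) let `C' = {2 v, -2 v | v ∈ C} ∪ {0}`; `#C' ≥ c`, and `closure C' = 2 L` because
`closure C = L`. By `S_ols` there is `v ∈ C` such that `min (8 #S, 8 (N - #S), c) ≤ 16 bd S (2 v)` (for
`-2 v` note `bd S (-x) = bd S x`). With the gadget `D` of `v` (disjoint from `R`): `SG (R ∪ D)` contains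
`r + S + v` and `r + S - v`, so `r' + S'` with `r' = r - v` and `S' = S ∪ (S + 2 v)`, and
`#S' = #S + bd S (2 v)`. The number of steps until `S = 2 L` is counted exactly as in `cov` (with `N` instead
of `l`, `16 N ≤ c m`): at most `m + 4 log₂ N + 8 ≤ m + 4 log₂ |L| + 8`. -/
def S_cov2 : Prop := S_ols → ∀ (G : Type) [AddCommGroup G] [Fintype G] [DecidableEq G]
  (L : AddSubgroup G) (Y : Finset G) (s b c m : ℕ), 0 < c →
  (∀ U : Finset G, #U ≤ b → ∃ C : Finset G, c ≤ #(C.image fun v => v + v) ∧ (∀ v ∈ C, v ∈ L ∧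
    ∃ D ⊆ Y, Disjoint D U ∧ #D ≤ s ∧ v ∈ SG D) ∧ AddSubgroup.closure (C : Set G) = L) →
  16 * Nat.card (dbl L) ≤ c * m → (m + 4 * Nat.log 2 (Nat.card L) + 8) * s ≤ b →
  ∃ R ⊆ Y, #R ≤ (m + 4 * Nat.log 2 (Nat.card L) + 8) * s ∧ Cov R (dbl L)

/-- [OE st2] (Compare `OD/P/st.lean`; here `FS f U` replaces `SG U`, there is no parity assumption and
the fibres of `f` have at most `4` elements.) PROOF. `N = |Γ|`. `FS f (insert a U)` is
`FS f U ∪ (FS f U + f a)` for `a ∉ U` and has `#(FS f U) + bd (FS f U) (f a)` elements. (1) As long as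
`2^14 #U < κ` and `2 #(FS f U) ≤ N`: the set `C = {f a, - f a | a ∈ Z \ U} ∪ {0}` generates `Γ` and has at least
`#(Z \ U) / 4 ≥ κ / 8` elements, so by `S_ols` there is `a ∈ Z \ U` with
`16 bd S (f a) ≥ min (8 #S, κ / 8)` for `S = FS f U` (`bd S (-x) = bd S x`). As long as `#S < κ / 64` a step
multiplies `#S` by at least `3/2`, after that it adds at least `κ / 128`. With `κ / 2^14` steps,
at most `2 log₂ κ + 4` of them of the first kind, we reach `#(FS f U₀) ≥ (κ / 2^15) (κ / 128) ≥ N / 2^22`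
or `2 #(FS f U₀) > N`. (2) Among all `U` with `U₀ ⊆ U ⊆ Z` choose one with `κ #(FS f U) - 2^14 N #U` maximal
(an integer). Then as in `st`: `κ bd (FS f U) (f a) ≤ 2^14 N` for `a ∈ Z \ U`,
`#U ≤ #U₀ + κ / 2^14 ≤ κ / 2^13`, and `#(FS f U) ≥ #(FS f U₀)`. -/
def S_st2 : Prop := S_ols → ∀ (Γ ι : Type) [AddCommGroup Γ] [Fintype Γ] [DecidableEq Γ]
  [DecidableEq ι] (f : ι → Γ) (κ : ℕ) (Z : Finset ι), 2 ^ 100 ≤ κ → Fintype.card Γ ≤ κ ^ 2 →
  (∀ v, #(Z.filter fun a => f a = v) ≤ 4) →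
  (∀ Z' ⊆ Z, 2 ^ 13 * #(Z \ Z') ≤ κ → AddSubgroup.closure (f '' (Z' : Set ι)) = ⊤) →
  8 * κ ≤ 10 * #Z →
  ∃ U ⊆ Z, 2 ^ 13 * #U ≤ κ ∧ Fintype.card Γ ≤ 2 ^ 23 * #(FS f U) ∧
    ∀ a ∈ Z \ U, κ * bd (FS f U) (f a) ≤ 2 ^ 14 * Fintype.card Γ

/-- [OE lin2] (`OD/P/lin.lean` with other constants.) PROOF. `N = |Γ|`, `w = (ψ x).valMinAbs`,
`|w| ≤ κ / 2`. We may assume `w ≠ 0`. Let `m = ⌈κ / (4 |w|)⌉ ≥ 1`; then `κ / 4 ≤ m |w| ≤ κ / 2`, so
`Re χ (m x) ≤ 0` for `χ = stdAddChar ∘ ψ`, and by `S_par` `N bd S (m x) ≥ ‖Ŝ χ‖² ≥ N² / 2^72`. As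
`bd S (m x) ≤ m bd S x` and `κ bd S x ≤ 2^14 N`, `m ≥ κ / 2^86`. As `m ≤ κ / (4 |w|) + 1` and `κ ≥ 2^87`,
`κ / (4 |w|) ≥ κ / 2^86 - 1 ≥ κ / 2^87`, so `|w| ≤ 2^85`. -/
def S_lin2 : Prop := S_par → ∀ (Γ : Type) [AddCommGroup Γ] [Fintype Γ] [DecidableEq Γ] (κ : ℕ)
  [NeZero κ] (S : Finset Γ) (ψ : Γ →+ ZMod κ) (x : Γ), 2 ^ 87 ≤ κ →
  (Fintype.card Γ : ℝ) ^ 2 / 2 ^ 72 ≤ ‖∑ s ∈ S, ZMod.stdAddChar (ψ s)‖ ^ 2 →
  κ * bd S x ≤ 2 ^ 14 * Fintype.card Γ → (ψ x).valMinAbs.natAbs ≤ 2 ^ 85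

/-- [OE cc2] (Compare `OD/P/cc.lean`; here `V` is the set of the values themselves.) PROOF. `N = |Γ|`. Let
`C = {x, -x | x ∈ V} ∪ {0}`: `closure C = ⊤`, `#C ≥ #V ≥ κ / 8`, and `κ bd S y ≤ 2^14 N` for `y ∈ C`. Let
`n = κ / 2^42` (division with remainder) and `B = ball C (3 n + 1)`. By `bd_ball`,
`κ bd S y ≤ (3 n + 1) 2^14 N` for `y ∈ B`, and `(3 n + 1) 2^40 ≤ κ`, so `bd S y ≤ N / 2^26`. By `ball_card`
`B = univ` or `#B ≥ (n + 1) #C ≥ (κ / 2^42) (κ / 8) = κ² / 2^45 ≥ N / 2^45`. `S_fou` for `δ = 2^-23`,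
`β = 2^-45`: a character `χ`, not trivial, with `‖∑_S χ‖² ≥ 2^-72 N²`. Take `ψ` from `S_chr`
(`χ = stdAddChar ∘ ψ`), `ψ ≠ 0` as `χ` is not trivial; by `S_lin2` `|ψ x| ≤ 2^85` for `x ∈ V`. -/
def S_cc2 : Prop := S_par → S_fou → S_chr → S_lin2 →
  ∀ (Γ : Type) [AddCommGroup Γ] [Fintype Γ] [DecidableEq Γ]
  (κ : ℕ) [NeZero κ] (V S : Finset Γ), 2 ^ 100 ≤ κ →
  Fintype.card Γ ≤ κ ^ 2 → (∀ x : Γ, κ • x = 0) → 2 * #S ≤ Fintype.card Γ →
  Fintype.card Γ ≤ 2 ^ 23 * #S → AddSubgroup.closure (V : Set Γ) = ⊤ → κ ≤ 8 * #V →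
  (∀ x ∈ V, κ * bd S x ≤ 2 ^ 14 * Fintype.card Γ) →
  ∃ ψ : Γ →+ ZMod κ, ψ ≠ 0 ∧ ∀ x ∈ V, (ψ x).valMinAbs.natAbs ≤ 2 ^ 85

/-- The conclusion of `S_inv2`. -/
def C_inv2 : Prop := ∀ (Γ ι : Type) [AddCommGroup Γ] [Fintype Γ] [DecidableEq Γ] [DecidableEq ι]
  (f : ι → Γ) (κ : ℕ) [NeZero κ] (Z : Finset ι), 2 ^ 100 ≤ κ →
  Fintype.card Γ ≤ κ ^ 2 → (∀ x : Γ, κ • x = 0) → (∀ v, #(Z.filter fun a => f a = v) ≤ 4) →
  9 * κ ≤ 10 * #Z →
  (∀ Z' ⊆ Z, 2 ^ 12 * #(Z \ Z') ≤ κ → AddSubgroup.closure (f '' (Z' : Set ι)) = ⊤) →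
  (∃ R ⊆ Z, 2 ^ 12 * #R ≤ κ ∧ ∀ z, z ∈ FS f R) ∨
  (∃ ψ : Γ →+ ZMod κ, ψ ≠ 0 ∧ ∃ V ⊆ Z, 2 ^ 12 * #(Z \ V) ≤ κ ∧
    ∀ a ∈ V, (ψ (f a)).valMinAbs.natAbs ≤ 2 ^ 85)

/-- [OE inv2] (Compare `OD/P/inv.lean`.) PROOF. `N = |Γ|`. `S_st2` for `Z` gives `U₁`. If `2 #(FS f U₁) ≤ N` then
`S_cc2` for the set `f (Z \ U₁)` and `S = FS f U₁` (`#(f (Z \ U₁)) ≥ #(Z \ U₁) / 4 ≥ κ / 8`; its closure
is `⊤` by hypothesis) gives the second alternative with `V = Z \ U₁`. Otherwise apply `S_st2` to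
`Z₁ = Z \ U₁` (if `Z' ⊆ Z₁` and `2^13 #(Z₁ \ Z') ≤ κ` then `2^12 #(Z \ Z') ≤ κ`; `#Z₁ ≥ 8 κ / 10`), which
gives `U₂`. If `2 #(FS f U₂) ≤ N` use `S_cc2` for `Z \ (U₁ ∪ U₂)` and `S = FS f U₂`. Otherwise `FS f U₁` and
`FS f U₂` both have more than `N / 2` elements, so every `z ∈ Γ` is `a + b` with `a ∈ FS f U₁`,
`b ∈ FS f U₂`, and `z ∈ FS f (U₁ ∪ U₂)` because `U₁`, `U₂` are disjoint; `R = U₁ ∪ U₂`. -/
def S_inv2 : Prop := S_ols → S_st2 → S_par → S_fou → S_chr → S_lin2 → S_cc2 → C_inv2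

/-- The conclusion of `S_ivh2`. -/
def C_ivh2 : Prop := ∀ (G : Type) [AddCommGroup G] [Fintype G] [DecidableEq G]
  (κ : ℕ) (H : AddSubgroup G) (Z : Finset G), 2 ^ 100 ≤ κ → Nat.card H ≤ κ ^ 2 →
  (∀ x : G, κ • x = 0) → #(univ.filter fun x : G => x + x = 0) ≤ 4 → 9 * κ ≤ 10 * #Z →
  (∀ z ∈ Z, z ∈ H) →
  (∀ Z' ⊆ Z, 2 ^ 12 * #(Z \ Z') ≤ κ → AddSubgroup.closure (Z' : Set G) = H) →
  (∃ R ⊆ Z, 2 ^ 12 * #R ≤ κ ∧ Cov R (dbl H)) ∨
  (∃ (V : Finset G) (H' : AddSubgroup G) (w : G → ℤ), V ⊆ Z ∧ 2 ^ 12 * #(Z \ V) ≤ κ ∧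
    (∀ a ∈ V, (w a).natAbs ≤ 2 ^ 85) ∧
    (∀ n : G → ℤ, ∑ a ∈ V, n a * w a = 0 → ∑ a ∈ V, n a • a ∈ H') ∧
    Nat.card H' ≤ 2 ^ 85 * κ)

/-- [OE ivh2] (Compare `OD/P/ivh.lean`.) PROOF. Apply `C_inv2` to the group `Γ = ↥(dbl H)`, `ι = G`,
`f a = a + a` as an element of `dbl H` for `a ∈ H` and `f a = 0` otherwise, and the set `Z`. The fibres of `f` on
`Z ⊆ H`: `a + a = b + b` iff `a - b` is one of the at most four `x` with `x + x = 0`. `f (Z')` generates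
`dbl H` if `closure Z' = H`. `|dbl H| ≤ |H| ≤ κ²`. In the first case let `r = - ∑_R a ∈ SG R` (`P = ∅`
in `mem_SG`); for `z ∈ dbl H` we have `z = ∑_{a ∈ P} (a + a)` with `P ⊆ R`, so `r + z ∈ SG R` (`mem_SG`). In the second case let
`H' = {x ∈ H | ψ (x + x) = 0}` (a subgroup of `G`), `w a = (ψ (a + a)).valMinAbs` for `a ∈ H` and `0`
otherwise. (a) `∑_V n a w a = 0` gives `ψ (2 ∑_V n a a) = ∑_V n a (w a : ZMod κ) = 0`. (b) `|H| = |H'| |I|`,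
`I` the range of `x ↦ ψ (x + x)` on `H`, which is the range of `ψ`. As `f (V)` generates `dbl H` and `ψ ≠ 0`
there is `a ∈ V` with `ψ (f a) ≠ 0`, `j = |w a| ≤ 2^85`; the order `o` of this element satisfies `κ ∣ o w a`,
`o j ≥ κ`, so `|I| ≥ o`, `2^85 |I| ≥ κ` and `κ |H'| ≤ 2^85 |H'| |I| = 2^85 |H| ≤ 2^85 κ²`. -/
def S_ivh2 : Prop := C_inv2 → C_ivh2

/-- The conclusion of `S_sml2`. -/
def C_sml2 : Prop := ∀ (G : Type) [AddCommGroup G] [Fintype G] [DecidableEq G] (κ h t u : ℕ),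
  HypE G κ h t → 2 ^ 100 ≤ κ → u ≤ κ + t + 2 → Good G κ t u →
  ∀ (A Z₀ : Finset G) (K₀ : AddSubgroup G), #A = u → Z₀ ⊆ A →
  (∀ z ∈ Z₀, z ∈ K₀) → 95 * κ ≤ 100 * #Z₀ → 20000 * Nat.card K₀ ≤ κ ^ 2 → Sol A κ

/-- [OE sml2] (Compare `OD/P/sml.lean`.) Most of `A` in a group of order at most `κ² / 20000`. PROOF.
`S_rob` (1) for `gen Z = AddSubgroup.closure Z`, `V = Z₀`, `d = κ`, `a = 256`,
`b = κ (20 log₂ κ + 40)`: there is `Z ⊆ Z₀` with, for `K = closure Z`,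
`κ #(Z₀ \ Z) ≤ 512 |K₀| + κ (20 log₂ κ + 40) log₂ |K₀|`, so, as `|K₀| ≤ κ² / 20000`, `log₂ |K₀| ≤ 2 log₂ κ`
and `κ` is large, `#(Z₀ \ Z) ≤ 3 κ / 100` and `#Z ≥ 92 κ / 100`; and `closure Z' = K` for all `Z' ⊆ Z` with
`κ #(Z \ Z') ≤ 256 |K| + b`. Let `J ⊆ A`, `#J ≤ t + 4`, `Y = Z \ J`. Put `m = 256 |K| / κ + 1`, `c = κ / 8`
(divisions with remainder), `b' = m + 4 log₂ |K| + 8`. Then `κ (b' + #J) ≤ 256 |K| + b`
(`t ≤ log₂ κ`), so for every `U` with `#U ≤ b'` the set `C = Y \ U` has `closure C = K`. `b' ≤ κ / 50`, so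
`#C ≥ 89 κ / 100` and `#{2 v | v ∈ C} ≥ #C / 4 ≥ c` (at most four `x` with `2 x = 0`), and
`16 |2 K| ≤ 16 |K| ≤ c m` (`c ≥ κ / 9`). `S_cov2` for `L = K`, `s = 1`, `D = {v}` gives `R ⊆ Z \ J` with
`Cov R (dbl K)`. Now apply `Good` to `A` and `K`: `InK A K ⊇ Z`, so `#(InK A K) ≥ 92 κ / 100` and
`closure (InK A K) = K`. -/
def S_sml2 : Prop := S_ols → S_cov2 → S_rob → C_sml2

/-- The conclusion of `S_big2`. -/
def C_big2 : Prop := ∀ (G : Type) [AddCommGroup G] [Fintype G] [DecidableEq G] (κ h t u : ℕ),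
  HypE G κ h t → 2 ^ 100 ≤ κ → κ ≤ u → u ≤ κ + t + 2 → Good G κ t u → ∀ A : Finset G, #A = u →
  Sol A κ ∨ ∃ (V : Finset G) (H H' : AddSubgroup G) (w : G → ℤ), V ⊆ A ∧
    50 * #(A \ V) ≤ κ ∧ Strip2 V H H' w κ

/-- [OE big2] (Compare `OD/P/big.lean`.) PROOF. Let `gen Z = AddSubgroup.closure Z`, `b = κ / 2^10`
(division with remainder), `M = 15`. (a) Suppose there is `Z ⊆ A` with `#(A \ Z) ≤ 16 b` and
`log₂ |gen A| > log₂ |gen Z| + 15`. Then `|gen Z| < |gen A| / 2^14`... precisely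
`|gen Z| < 2 ^ (log₂ |gen Z| + 1) ≤ 2 ^ (log₂ |gen A| - 15) ≤ |G| / 2^15 ≤ κ² / 20000` and
`#Z ≥ κ - κ / 64 ≥ 95 κ / 100`: `C_sml2`. (b) Otherwise `S_rob` (2) gives `Z ⊆ A` with `#(A \ Z) ≤ 15 b`, such
that `closure Z' = closure Z = H` for all `Z' ⊆ Z` with `#(Z \ Z') ≤ b`. If `20000 |H| ≤ κ²`: `C_sml2`.
Otherwise for every `J ⊆ A` with `#J ≤ t + 4` apply `C_ivh2` to `H` and `Z \ J` (`|H| ≤ |G| = h κ ≤ κ²`; if
`Z' ⊆ Z \ J` and `2^12 #((Z \ J) \ Z') ≤ κ` then `#(Z \ Z') ≤ κ / 2^12 + t + 4 ≤ b`). (b1) If for all these `J`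
the first case occurs apply `Good` to `A` and `H` (`InK A H ⊇ Z`, `closure (InK A H) = H`). (b2) If for some `J`
the second case occurs: `V ⊆ Z \ J`; `Strip2 V H H' w κ`: `rob` because `V' ⊆ V`,
`2^12 #(V \ V') ≤ κ` give `#(Z \ V') ≤ κ / 2^12 + κ / 2^12 + t + 4 ≤ b`. And
`#(A \ V) ≤ 15 κ / 2^10 + κ / 2^12 + t + 4 ≤ κ / 50`. -/
def S_big2 : Prop := S_rob → C_sml2 → C_ivh2 → C_big2

/-! ## B. The covered case -/

/-- [OE rel] Largest relations. PROOF. Write `C = X \ W`, `∑_P q = ∑_N q` with `P ∪ N = W` disjoint. (i) A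
relation `D ⊆ C`, `D ≠ ∅`, would give the larger relation `W ∪ D`. (ii) So `S ↦ ∑_S q` is injective on the
subsets of `C` (if `∑_S q = ∑_S' q` then `(S \ S') ∪ (S' \ S)` is a relation), `2^#C ≤ |Q|`. (iii) Let `w ∈ W`,
`2 q w ≠ 0`. The map `(δ, S) ↦ δ (2 q w) + ∑_S q`, `δ ∈ {0, 1}`, `S ⊆ C`, is injective: if two different pairs
have the same value then the `δ` are different, and `2 q w + ∑_S q - ∑_S' q = 0` with `S ≠ S'` (as
`2 q w ≠ 0`), wlog disjoint (cancel). Move `w` to the other side in the relation `W` (from `P` to `N` or from `N` to `P`: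
this changes `∑_P q - ∑_N q` by `∓ 2 q w`) and add `S`, `S'` on the suitable sides: the set
`W ∪ S ∪ S'` is a relation, larger than `W`. (iv) Let `w ∈ W`, `q w ≠ 0`, `2 q w = 0`,
`|Q| < 2^(#C + 1)`. The map `S ↦ ∑_S q` on the subsets of `C ∪ {w}` is not injective, so there are
disjoint `S`, `S' ⊆ C ∪ {w}`, not both empty, with `∑_S q = ∑_S' q`; by (i) `w` is in one of them, so
`q w = ∑_D ± q` with `D ⊆ C` (the rest), `D ≠ ∅` as `q w ≠ 0`. Replace `w` in the relation `W` by `D` with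
suitable signs: `(W \ {w}) ∪ D` is a relation, so `#W - 1 + #D ≤ #W`, `D = {c}`, `q w = ± q c`, and
`q c = ± q w = q w`. -/
def S_rel : Prop := ∀ (ι Q : Type) [DecidableEq ι] [AddCommGroup Q] [Finite Q] (q : ι → Q)
  (X W : Finset ι), W ⊆ X → Rel q W → (∀ W' ⊆ X, Rel q W' → #W' ≤ #W) →
  (∀ D ⊆ X \ W, Rel q D → D = ∅) ∧ 2 ^ #(X \ W) ≤ Nat.card Q ∧
  (∀ w ∈ W, q w + q w ≠ 0 → 2 ^ (#(X \ W) + 1) ≤ Nat.card Q) ∧
  (∀ w ∈ W, q w ≠ 0 → q w + q w = 0 → Nat.card Q < 2 ^ (#(X \ W) + 1) →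
    ∃ c ∈ X \ W, q c = q w)

/-- [OE drop] Choosing `j` elements with a given sum of their classes. PROOF. `V` is trivial, or of order `2`, or
`≅ C_2²` (order `3` is impossible, `2 v = 0`). Some class `c₀` contains at least `j + 1` elements of `B₀`
(pigeonhole, `4 (j + 1) ≤ #B₀`). Let `Σ = c (B)` be the set of the occupied classes. If `Σ = V`: take
`j - 1` elements of `B₀` in `c₀` and another element of the class `s - (j - 1) c₀`. If `|V| = 2` and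
`Σ ≠ V` then `Σ = {1}` (`{0}` does not generate); with the isomorphism `f : V → ZMod 2`, either `f s ≠ j`
(second alternative) or any `j` elements of `B₀` do. If `|V| = 4` and `#Σ = 3`: for `j = 1` either `s ∈ Σ` and
one element does, or `s` is the missing class (third alternative). For `j ≥ 2` let `s' = s - (j - 2) c₀`; if
`s' = 0` take `j` elements of `B₀` in `c₀`; if `s' ≠ 0` there are two different classes in `Σ` with the sum `s'`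
(the pairs `{v, v + s'}` partition `V` into two pairs, and `Σ` misses only one element); take `j - 2`
elements of `B₀` in `c₀` and one new element in each of these two classes. If `|V| = 4` and `#Σ = 2`:
`Σ = {a, b}` generates `V`, so `a, b ≠ 0` are a basis of the `F_2`-space `V`; let `f a = f b = 1`. If `f s ≠ j`: second alternative. Otherwise say
`c₀ = a`; `s = α a + β b` with `α + β ≡ j` mod `2`; if `β` is even take `j` elements of `B₀` in `a`, if `β` is odd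
take `j - 1` of them and one element in `b`. `#Σ ≤ 1` is impossible for `|V| = 4`. -/
def S_drop : Prop := ∀ (V G : Type) [AddCommGroup V] [Finite V] [DecidableEq G] (c : G → V)
  (B B₀ : Finset G) (j : ℕ) (s : V), (∀ v : V, v + v = 0) → Nat.card V ≤ 4 →
  AddSubgroup.closure (c '' (B : Set G)) = ⊤ → B₀ ⊆ B → 4 * (j + 1) ≤ #B₀ → 1 ≤ j →
  (∃ J ⊆ B, #J = j ∧ #(J \ B₀) ≤ 2 ∧ ∑ x ∈ J, c x = s) ∨
  (∃ f : V →+ ZMod 2, (∀ b ∈ B, f (c b) = 1) ∧ f s ≠ (j : ZMod 2)) ∨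
  (j = 1 ∧ Nat.card V = 4 ∧ ∀ v, (∃ b ∈ B, c b = v) ↔ v ≠ s)

/-- [OE sol] Completing a relation to a solution. PROOF. `CovP` for `J` (`J ⊆ InK A K ⊆ A`) gives `R ⊆ A \ J`,
`R ⊆ K`, and `r ∈ SG R` with `r + dbl K ⊆ SG R`. Let `B = InK A K \ (J ∪ R)`; `InK A K \ J` is the disjoint union of
`B` and `R`. `r - ∑_R x ∈ dbl K` (`mem_SG`: `r = 2 ∑_P x - ∑_R x`, so `r - ∑_R x = 2 (∑_P x - ∑_R x)`,
`P ⊆ R ⊆ K`). So `∑_B x + z + r ∈ dbl K`, and `y = - (∑_B x + z + r) ∈ dbl K`, `r + y ∈ SG R`. The three sets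
`B`, `W`, `R` are pairwise disjoint subsets of `A` (`W` is outside of `K`); `∑_B x ∈ SG B`, `z ∈ SG W`,
`r + y ∈ SG R` and the sum of these three is `0`, so `0 ∈ SG (B ∪ W ∪ R)`, a set of
`#(InK A K) - #J + #W = κ` elements. `sol_of_SG`. -/
def S_sol : Prop := ∀ (G : Type) [AddCommGroup G] [Fintype G] [DecidableEq G] (κ q : ℕ)
  (A B₀ W J : Finset G) (K : AddSubgroup G) (z : G), CovP A B₀ K q → W ⊆ A →
  (∀ w ∈ W, w ∉ K) → z ∈ SG W → J ⊆ InK A K → #(J \ B₀) ≤ 2 → #J ≤ q →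
  #(InK A K) + #W = κ + #J → ∑ x ∈ InK A K \ J, x + z ∈ dbl K → Sol A κ

/-- [OE enl] The maximal covered group. PROOF. Among all subgroups `K` with `K₀ ≤ K`,
`closure (InK A K) = K` and `CovP A (InK A K₀) K q` (for instance `K₀`) choose one with `|K|` maximal. Let
`w ∈ A`, `w ∉ K`, `2 w ∈ K` and `K₂ = K ⊔ ⟨w⟩`, which is `K ∪ (w + K)`, larger than `K`, generated by
`InK A K ∪ {w}`. (star) If `2 w ∈ dbl K` then `dbl K₂ = dbl K` (`2 (k + w) = 2 k + 2 w`), and `CovP` for `K₂`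
follows from `CovP` for `K`, contradiction. So `2 w ∉ dbl K`. (few) Suppose that the coset `w + K` contains three
different elements `a, b, c` of `A`. Let `J` be as in `CovP`. `a, b, c` are not in `K`, so not in
`B₀ = InK A K₀`, and at most two of them are in `J` because `#(J \ B₀) ≤ 2`; let `w'` be one of them which is not in `J`.
Take `R`, `r` from `CovP` for `K` and `J`, `R' = R ∪ {w'}` (`w' ∉ R` as `R ⊆ K`) and `r' = r - w' ∈ SG R'`. An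
element `z` of `dbl K₂` is in `dbl K` or in `2 w + dbl K = 2 w' + dbl K` (`w' - w ∈ K`). In the first case
`r' + z = (r + z) - w' ∈ SG R'`, in the second case `z = 2 w' + z₀`, `z₀ ∈ dbl K`, and
`r' + z = (r + z₀) + w' ∈ SG R'`. So `CovP` holds for `K₂`, contradiction. -/
def S_enl : Prop := ∀ (G : Type) [AddCommGroup G] [Fintype G] [DecidableEq G] (A : Finset G)
  (K₀ : AddSubgroup G) (q : ℕ), AddSubgroup.closure (InK A K₀ : Set G) = K₀ →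
  (∀ J ⊆ A, #J ≤ q → ∃ R ⊆ A \ J, (∀ x ∈ R, x ∈ K₀) ∧ Cov R (dbl K₀)) →
  ∃ K : AddSubgroup G, Enl A (InK A K₀) K q

/-- [OE beta] PROOF. Let `X = A \ InK A K`, `C = X \ W`, `q` the map to `G/K`. If some `w ∈ W` has `2 w ∉ K`
this is the third statement of `S_rel`. Otherwise `2 w ∈ K` for all `w ∈ W` (and `w ∉ K`, `q w ≠ 0`). Suppose
`|G/K| < 2^(#C + 1)`. By the fourth statement of `S_rel` there is for every `w ∈ W` an element `c(w) ∈ C` with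
`q (c(w)) = q w`. The map `w ↦ c(w)` is injective on `W`: if `c(w) = c(w') = c`, `w ≠ w'`, then `w`, `w'`, `c` are
three different elements of `A` in the coset `w + K`, against `Enl.few`. So `c(W) ⊆ C` has `#W > 0` elements
and is a relation (the same signs as for `W`), against the first statement of `S_rel`. -/
def S_beta : Prop := S_rel → ∀ (G : Type) [AddCommGroup G] [Fintype G] [DecidableEq G]
  (A B₀ W : Finset G) (K : AddSubgroup G) (q : ℕ), Enl A B₀ K q → W ⊆ A \ InK A K →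
  Rel (fun x : G => (x : G ⧸ K)) W →
  (∀ W' ⊆ A \ InK A K, Rel (fun x : G => (x : G ⧸ K)) W' → #W' ≤ #W) → W.Nonempty →
  2 ^ (#((A \ InK A K) \ W) + 1) ≤ Nat.card (G ⧸ K)

/-- [OE occ] All classes are occupied. PROOF. If the coset `v + dbl K` contains no element of `A` then
`InK A K ⊆ K \ (v + dbl K)`, so `#(InK A K) ≤ |K| - |dbl K| ≤ 3 |K| / 4 < 3 κ / 4`, contradiction. -/
def S_occ : Prop := ∀ (G : Type) [AddCommGroup G] [Fintype G] [DecidableEq G] (A : Finset G)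
  (K : AddSubgroup G) (κ : ℕ), 91 * κ ≤ 100 * #(InK A K) → Nat.card K < κ →
  Nat.card K ≤ 4 * Nat.card (dbl K) → ∀ v ∈ K, ∃ a ∈ A, a ∈ K ∧ a - v ∈ dbl K

/-- [OE fail] The case of the wrong parity. PROOF. `InK A K ⊆ K \ K'`, so `|K| ≥ 2 #(InK A K) ≥ 182 κ / 100`
(`B₀ ⊆ InK A K`). Fix `a₀ ∈ InK A K`; for all `a ∈ InK A K`: `a - a₀ ∈ K'` (index two); `2 a₀ ∈ dbl K ≤ K'`.
Let `q x = (x - a₀) mod K'` (`G → G/K'`), `X = A \ InK A K`, `W ⊆ X` a relation for `q` of maximal size,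
`C = X \ W`, `T = #(InK A K) + #W = u - #C`. By `S_rel`, `2^#C ≤ |G/K'|` and
`|G/K'| |K| = 2 |G| = 2 h κ`, so `182 |G/K'| ≤ 200 h`, `|G/K'| < 2^(t+2)` and `#C ≤ t + 1`, `T ≥ u - t - 1`. From the
relation we get `z ∈ SG W` with `z - #W a₀ ∈ K'` (`∑_P (x - a₀) - ∑_N (x - a₀) = z - (#P - #N) a₀`, and
`2 a₀ ∈ K'`); `z ∈ K`. Let `S₀ = ∑_{InK A K} x + z`, then `S₀ ≡ T a₀` mod `K'`. (1) Suppose `T ≥ κ` and
`K' = dbl K`. Let `J ⊆ B₀` be any set of `j = T - κ` elements (`j ≤ t + 2`): `S₀ - ∑_J x ≡ (T - j) a₀ = κ a₀`, which is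
in `dbl K` as `κ` is even; `S_sol`. (2) Suppose `T ≥ κ`, `K' ≠ dbl K`. Then `|K| ≤ 4 |dbl K|` (`card_le_dbl'` in
`Explicit.lean` and `HypE.two`), so `|K'| = 2 |dbl K|`, and `K \ K'` consists of two cosets of `dbl K`, both occupied by
elements of `InK A K` (otherwise `K = closure (InK A K) ≤ dbl K ∪ (a₀ + dbl K)`, a group of order
`2 |dbl K|`). (2a) `j = T - κ ≥ 1`: let `J₁` be a set of `j` elements of `B₀` in the coset which contains at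
least half of `B₀`, and `J₂` the set which arises from `J₁` by replacing one element by an element of `InK A K` in the
other coset. `S₀ - ∑_J x ∈ K'` for both, and the two values differ modulo `dbl K`, so one of them is
in `dbl K`; `S_sol` (`#(J \ B₀) ≤ 1`). (2b) `T = κ`: `u ≥ κ + t + 1`, so `#C = t + 1`, `u = κ + t + 1`. If `W = ∅` then
`#(InK A K) = κ`, `|K| ≥ 2 κ`, `|G/K'| ≤ h < 2^(t+1)`, contradiction to `2^#C ≤ |G/K'|`. Let `w ∈ W`.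
`2 q w = 2 w - 2 a₀ ≡ 2 w` mod `K'`. If `2 w ∉ K'` then `2^(t+2) ≤ |G/K'|` by `S_rel`, contradiction. So
`2 w ∈ K' ≤ K` and `2 w ∉ dbl K` by `Enl.star`. `S₀ ∈ K'`. If `S₀ ∈ dbl K` use `S_sol` with `J = ∅`. Otherwise change the sign
of `w` in `z`: `z' = z ∓ 2 w ∈ SG W`, and `S₀ ∓ 2 w ∈ dbl K` because both `S₀` and `2 w` are in `K' \ dbl K` and
`dbl K` has index two in `K'`; `S_sol` with `J = ∅`. (3) Suppose `T < κ`. Then `T = κ - 1`,
`u = κ + t`, `#C = t + 1`, `K' = dbl K`. If there is `w ∈ W`: `2 w ∉ K'` gives `2^(t+2) ≤ |G/K'|`,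
contradiction; `2 w ∈ K' = dbl K` contradicts `Enl.star`. So `W = ∅`, `#(InK A K) = κ - 1`,
`|K'| ≥ κ - 1`. If `|K'| ≥ κ` then `|G/K'| ≤ h < 2^(t+1)`, contradiction. So `|K'| = κ - 1`; a prime
`p` dividing it gives an element of order `p` in `G` (Cauchy), so `p ∣ κ` (`HypE.exp`) and `p ∣ 1`, contradiction. -/
def S_fail : Prop := S_rel → S_sol → ∀ (G : Type) [AddCommGroup G] [Fintype G] [DecidableEq G]
  (κ h t u : ℕ), HypE G κ h t → 2 ^ 100 ≤ κ → ∀ (A B₀ : Finset G) (K K' : AddSubgroup G),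
  #A = u → κ + t ≤ u → u ≤ κ + t + 2 → Enl A B₀ K (t + 4) → B₀ ⊆ A → 91 * κ ≤ 100 * #B₀ →
  dbl K ≤ K' → K' ≤ K → Nat.card K = 2 * Nat.card K' → (∀ a ∈ A, a ∈ K → a ∉ K') →
  (u = κ + t → K' = dbl K) → Sol A κ

/-- [OE gap] Arithmetic (`k = |K|`, `i = |G/K|`). PROOF. `k i = h κ`, `k < κ` give `i > h`; `91 κ ≤ 100 k` gives
`91 i ≤ 100 h`. Let `d = gcd(i, h)`, `i = d i'`, `h = d h'`. `(κ - k) i = κ (i - h)`, so
`(κ - k) i' = κ (i' - h')`, and `gcd(i', i' - h') = 1`, so `i' ∣ κ`. Also `h' ∣ h ∣ κ`, `gcd(i', h') = 1`, so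
`κ = i' h' c`, and `κ - k = h' c (i' - h') ≥ h' c`. As `91 i' ≤ 100 h'`:
`91 κ = 91 i' h' c ≤ 100 h'² c ≤ 100 (κ - k)²`. And `2^t ≤ h ≤ κ`. If `6 t + 4 ≥ κ - k` then
`91 κ ≤ 100 (6 t + 4)²`, which is false for `κ ≥ 2^500`, `2^t ≤ κ` (if `t ≤ 250` the right side is at most
`2^30`; if `t ≥ 250` then `100 (6 t + 4)² < 2^t ≤ κ`). -/
def S_gap : Prop := ∀ κ h i k t : ℕ, 2 ^ 500 ≤ κ → 0 < h → h ∣ κ → k * i = h * κ → k < κ →
  91 * κ ≤ 100 * k → 2 ^ t ≤ h → 6 * t + 4 < κ - k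

/-- [OE den] A nearly perfect dissociated set. PROOF. Let `C = X \ W`, `c = #C`, `q : G → Q = G/K`, and let the
relation be `∑_{x ∈ W} ε_x q x = 0` (`ε_x = ± 1`). (0) For `w ∈ W` the `2^(c+1)` elements
`∑_S q + δ 2 ε_w q w`, `S ⊆ C`, `δ ∈ {0, 1}`, are different (see the proof of (iii) in `S_rel`), also with `-2`
instead of `2`; and the `2^c` elements `∑_S q` are different. As `|Q| < 2^c + 2^(c+1)`, every
`g ∈ Q` can be written as `g = ∑_S q - ∑_S' q - δ 2 ε_w q w` with `S, S' ⊆ C`, `δ ∈ {0, 1}` (the sets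
`g + {∑_S' q + δ 2 ε_w q w}` and `{∑_S q}` intersect), and `S`, `S'` may be taken disjoint; similarly
`g = ∑_S q - ∑_S' q + δ 2 ε_w q w` for suitable other `S`, `S'`, `δ`. (1) Fix `w ∈ W`, let `w' ∈ W`, `w' ≠ w`, and write
`ε_{w'} q w' = ∑_S q - ∑_S' q - δ 2 ε_w q w`. Replace `w'` in the relation `W` by `S`, `S'` (`S` with sign `+`,
`S'` with sign `-`) and, if `δ = 1`, change the sign of `w`: the sum changes by
`- ε_{w'} q w' + ∑_S q - ∑_S' q - δ 2 ε_w q w = 0`. So `(W \ {w'}) ∪ S ∪ S'` is a relation and by maximality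
`#(S ∪ S') ≤ 1`. Hence `q w'` is, up to sign, one of `2 q w`, `q x`, `q x + 2 q w`, `q x - 2 q w` with `x ∈ C`. (2) So the
elements of `W` have values in at most `3 c + 2` pairs `{v, -v}` of `Q`; as `#W > 2 (3 c + 2)` there are three different
elements `w₁, w₂, w₃ ∈ W` in one pair, and two of the three elements `ε_{w_i} q w_i ∈ {v, -v}` are equal, say
`ε₁ q w₁ = ε₂ q w₂ = u`. (3) `4 u = 0`: write `4 u = ∑_S q - ∑_S' q + δ 2 u` by (0) with `w = w₁`, `S`, `S'`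
disjoint. If `δ = 1` then `2 u = ∑_S q - ∑_S' q`, which contradicts (0) (`∑_S' q + 2 ε₁ q w₁ = ∑_S q`). So
`δ = 0`: changing the signs of `w₁` and `w₂` and adding `S`, `S'` gives the relation `W ∪ S ∪ S'`
(`- 2 u - 2 u + ∑_S q - ∑_S' q = 0`), so `S ∪ S' = ∅` and `4 u = 0`. (4) Let `z = ∑_{x ∈ W} ε_x x`, `v = ε₂ w₂`,
`y = ε₁ w₁ + ε₂ w₂`: `y - 2 v = ε₁ w₁ - ε₂ w₂ ∈ K`, `z - 2 y ∈ SG W`, `2 y ∈ K` because
`2 y ≡ 4 u = 0`, and `2 v ∉ K` by hypothesis. -/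
def S_den : Prop := S_rel → ∀ (G : Type) [AddCommGroup G] [Fintype G] [DecidableEq G]
  (X W : Finset G) (K : AddSubgroup G), W ⊆ X → Rel (fun x : G => (x : G ⧸ K)) W →
  (∀ W' ⊆ X, Rel (fun x : G => (x : G ⧸ K)) W' → #W' ≤ #W) → (∀ w ∈ W, w + w ∉ K) →
  Nat.card (G ⧸ K) < 3 * 2 ^ #(X \ W) → 6 * #(X \ W) + 4 < #W →
  ∃ z ∈ SG W, z ∈ K ∧ ∃ y v : G, z - (y + y) ∈ SG W ∧ y - (v + v) ∈ K ∧ y + y ∈ K ∧
    v + v ∉ K

/-- [OE finU] PROOF. Let `A`, `K₀` be as in `Good`, `B₀ = InK A K₀`. `S_enl` (`q = t + 4`) gives `K` with `Enl A B₀ K (t + 4)`;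
`B₀ ⊆ InK A K`. `|K| ≤ 4 |dbl K|` (`card_le_dbl'`, `Explicit.lean`). Let `q : G → G/K`, `X = A \ InK A K`, `W ⊆ X` a relation of
maximal size, `C = X \ W`, `z ∈ SG W` with `z ∈ K` (`z = ∑_P x - ∑_N x`), `S₀ = ∑_{InK A K} x + z ∈ K`,
`T = #(InK A K) + #W = u - #C`. `|K| |G/K| = h κ`, `|K| ≥ #B₀ ≥ 91 κ / 100`. `S_rel`: `2^#C ≤ |G/K|`; `S_beta`: if
`W ≠ ∅` then `2^(#C + 1) ≤ |G/K|`. For `j = T - κ ≥ 1` (`j ≤ t + 2`) apply `S_drop` to `V = ↥K ⧸ (dbl K).addSubgroupOf K`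
(`|V| = |K| / |dbl K| ≤ 4`, `2 v = 0`), `c x` the class of `x` for `x ∈ K` (and `0` otherwise), `B = InK A K` (`Enl.gen`), `B₀`,
`s` the class of `S₀`. (D1) The first alternative gives `J` with `S₀ - ∑_J x ∈ dbl K`, and `S_sol` gives a solution. (D2)
In the second alternative `f` is not `0` (`B ≠ ∅`); let `K'` be the kernel of `K → V → ZMod 2`: `dbl K ≤ K' ≤ K`,
`|K| = 2 |K'|`, `InK A K ∩ K' = ∅`, and `S_fail` gives a solution (`u ≠ κ + t`). (CASE 1) `|K| ≥ κ`. `|G/K| ≤ h < 2^(t+1)`, so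
`#C ≤ t`. (1a) `W = ∅`, `z = 0`: `j = #(InK A K) - κ = u - #C - κ ≥ 1`. (D2) is impossible: `f s = ∑_{InK A K} f (c x) = #(InK A K) = κ + j = j`
in `ZMod 2`. In the third alternative of `S_drop` `j = 1`, no element of `InK A K` has the class `s`, `#(InK A K) = κ + 1`: a subset `B'` of
`InK A K` with `κ` elements is `InK A K \ {b}`, with the sum `S₀ - b ∉ dbl K` (the class of `b` is not `s`). So
`eta K κ ≥ κ + 1` (`le_eta`); `C = X` has `u - κ - 1 ≥ t` elements and is dissociated modulo `K` (first statement of `S_rel`), so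
`dis (G ⧸ K) ≥ t` (`le_dis_of_lift`): `Spec G κ t 1`. So `u ≠ κ + t + 1`, `u = κ + t + 2` and `#C = t + 1`, contradiction. (1b)
`W ≠ ∅`: `2^(#C + 1) ≤ h`, so `#C ≤ t - 1` (`#C + 1 ≤ t`), `j ≥ 2`: the third alternative is impossible, use (D1), (D2).
(CASE 2) `|K| < κ`. By `S_occ` all classes are occupied, so (D2) (take the class `0`) and the third alternative are impossible, and
any `j ≥ 1` gives a solution by (D1). `|G/K| < 2^(t+2)` (`91 |G/K| ≤ 100 h`), so `#C ≤ t + 1`, and `#C ≤ t` if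
`W ≠ ∅`. If `W ≠ ∅` then `j ≥ 1`. If `W = ∅` then `u = #(InK A K) + #C ≤ |K| + t + 1 ≤ κ + t`, contradiction. -/
def S_finU : Prop := S_rel → S_drop → S_sol → S_enl → S_beta → S_occ → S_fail →
  ∀ (G : Type) [AddCommGroup G] [Fintype G] [DecidableEq G] (κ h t u : ℕ), HypE G κ h t →
  2 ^ 100 ≤ κ → κ + t + 1 ≤ u → u ≤ κ + t + 2 → (u = κ + t + 1 → ¬ Spec G κ t 1) →
  Good G κ t u

/-- [OE finV] PROOF. As in `S_finU` with `u = κ + t`; now `|K| ≤ 2 |dbl K|` (`card_le_dbl'`), so the third alternative of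
`S_drop` (`|V| = 4`) is impossible, in (D2) `K' = dbl K`, and `S_fail` can be applied. (CASE 1) `|K| ≥ κ`: `#C ≤ t`. (1a)
`W = ∅`: `#(InK A K) = u - #C ≥ κ`. If `j = #(InK A K) - κ ≥ 1`: (D1), as (D2) is impossible. If `j = 0`: `#C = t`. If
`S₀ ∈ dbl K` use `S_sol` with `J = ∅`, `W = ∅`, `z = 0`. Otherwise `InK A K` has only one subset with `κ` elements, with the sum `S₀ ∉ dbl K`, so
`eta K κ ≥ κ` (`le_eta`) and `dis (G ⧸ K) ≥ #C = t` (`le_dis_of_lift`), i.e. `Spec G κ t 0`, contradiction. (1b) `W ≠ ∅`: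
`2^(#C + 1) ≤ h`, `#C + 1 ≤ t`, `j ≥ 1`: (D1), (D2). (CASE 2) `|K| < κ`; all classes are occupied (`S_occ`); `#C ≤ t + 1`, and
`#C ≤ t` if `W ≠ ∅`. (2a) `W = ∅`: `κ + t = u ≤ |K| + t + 1`, so `|K| = κ - 1`; a prime `p` dividing `κ - 1` divides
`|G|`, so there is an element of order `p`, `p ∣ κ`, contradiction. (2b) `W ≠ ∅`: `j ≥ 0`. If `j ≥ 1`: (D1). If `j = 0`:
`#C = t`, `T = κ`. If `S₀ ∈ dbl K`: `S_sol` with `J = ∅`. So `S₀ ∉ dbl K`, `dbl K ≠ K`, `|K| = 2 |dbl K|`, so for every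
`x ∈ K \ dbl K` we have `S₀ - x ∈ dbl K`. If there is `w ∈ W` with `2 w ∈ K` then `2 w ∉ dbl K` (`Enl.star`); changing
the sign of `w` in `z` gives `z' = z ∓ 2 w`, and `S₀ ∓ 2 w ∈ dbl K`: `S_sol`. Otherwise `2 w ∉ K` for all `w ∈ W`.
`|G/K| < 3 · 2^t` (`91 |G/K| ≤ 100 h < 100 · 2^(t+1)`) and `#W = κ - #(InK A K) ≥ κ - |K| > 6 t + 4` by `S_gap`
(`i = |G/K|`). `S_den` gives `z₁ ∈ SG W`, `z₁ ∈ K`, `y`, `v`. Let `S₁ = ∑_{InK A K} x + z₁ ∈ K`. `2 y ∈ K`; claim `2 y ∉ dbl K`: otherwise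
`2 y = 2 k`, `k ∈ K`, so `y - k` is one of the at most two `x` with `2 x = 0`; as `|K| = 2 |dbl K|` is even,
`K` contains an element of order two (Cauchy), so all `x` with `2 x = 0` are in `K` and `y ∈ K`; then
`2 v = y - (y - 2 v) ∈ K`, contradiction. So one of `S₁`, `S₁ - 2 y` is in `dbl K`; `S_sol` with `J = ∅` and `z₁` or
`z₁ - 2 y`. -/
def S_finV : Prop := S_rel → S_drop → S_sol → S_enl → S_beta → S_occ → S_fail → S_gap → S_den →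
  ∀ (G : Type) [AddCommGroup G] [Fintype G] [DecidableEq G] (κ h t : ℕ), HypE G κ h t →
  2 ^ 500 ≤ κ → #(univ.filter fun x : G => x + x = 0) ≤ 2 → h ∣ κ → ¬ Spec G κ t 0 →
  Good G κ t (κ + t)

/-! ## C. The strip -/

/-- The conclusion of `S_bs12`. -/
def C_bs12 : Prop := ∀ (G : Type) [AddCommGroup G] [Fintype G] [DecidableEq G]
  (κ : ℕ) (V : Finset G) (H H' : AddSubgroup G) (w : G → ℤ), 2 ^ 500 ≤ κ →
  9 * κ ≤ 10 * #V → Strip2 V H H' w κ → ∃ V₁ ⊆ V, 2 ^ 13 * #(V \ V₁) ≤ κ ∧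
  (∀ a ∈ V₁, κ ≤ 2 ^ 101 * #(V₁.filter fun x => (w x).natAbs = (w a).natAbs)) ∧
  ∀ Z ⊆ V₁, 2 ^ 112 * #(V₁ \ Z) ≤ κ → Lg w (2 ^ 86) Z = Lg w (2 ^ 86) V₁

/-- [OE bs12] (`OD/P/bs1.lean` with other constants.) PROOF. `K = 2^85`, `s = 2^86`, classes = sets of equal `|w|`. (1)
Let `V₀` be the set of the `a ∈ V` whose class in `V` has at least `κ / 2^100` elements. There are at most
`K + 1` classes, so `2^100 #(V \ V₀) ≤ (K + 1) κ`, `2^14 #(V \ V₀) ≤ κ`. (2) `S_rob` (2) for `gen = Lg w s` (monotone),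
`V₀`, `b = κ / 2^112` (division with remainder), `M = 173`: all `Lg w s Z`, `Z ⊆ V`, are contained in `H'`
(`Strip2.ker`), so `log₂ |Lg w s V₀| ≤ 85 + log₂ κ`; for `Z ⊆ V₀` with `#(V₀ \ Z) ≤ 174 b`, `Z` has at
least `κ / 2` elements and by `S_dif` `Lg w s Z` has at least `(κ / 2) / (2 K + 1) ≥ κ / 2^88` elements, so
`log₂ κ ≤ 88 + log₂ |Lg w s Z|`. We get `V₁ ⊆ V₀` with `#(V₀ \ V₁) ≤ 173 b ≤ κ / 2^104`. The classes in
`V₁` have at least `κ / 2^100 - κ / 2^104` elements, and `2^13 #(V \ V₁) ≤ κ`. -/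
def S_bs12 : Prop := S_rob → S_dif → C_bs12

/-- [OE bs42] Removing the small classes modulo `2 L`. PROOF. Let `M = dbl L`; `|L| ≤ 4 |M|` (`card_le_dbl'`,
`Explicit.lean`, with the hypothesis on `x + x = 0`). Elements `a`, `a'` of `V₁` with `w a = w a'` satisfy
`a - a' ∈ L` (the signed sum of `P = {a}`, `N = {a'}`), so `V₁` meets at most `2^86 + 1` cosets of `L`, and at most
`4 (2^86 + 1) ≤ 2^89` cosets of `M`. Let `V₂` be the set of the `a ∈ V₁` such that `a + M` contains at least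
`κ / 2^202` elements of `V₁`; `V₂` is a union of classes, so the class of `a ∈ V₂` in `V₂` is its class in `V₁`, and
`2^202 #(V₁ \ V₂) ≤ 2^89 κ`. -/
def S_bs42 : Prop := ∀ (G : Type) [AddCommGroup G] [Fintype G] [DecidableEq G]
  (κ : ℕ) (V₁ : Finset G) (L : AddSubgroup G) (w : G → ℤ),
  #(univ.filter fun x : G => x + x = 0) ≤ 4 → (∀ a ∈ V₁, (w a).natAbs ≤ 2 ^ 85) →
  Lg w (2 ^ 86) V₁ = L → ∃ V₂ ⊆ V₁, 2 ^ 113 * #(V₁ \ V₂) ≤ κ ∧
  ∀ a ∈ V₂, ∃ S ⊆ V₂, κ ≤ 2 ^ 202 * #S ∧ ∀ x ∈ S, x - a ∈ dbl L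

/-- The conclusion of `S_bs22`. -/
def C_bs22 : Prop := ∀ (G : Type) [AddCommGroup G] [Fintype G] [DecidableEq G]
  (κ : ℕ) (V V₂ : Finset G) (H H' L : AddSubgroup G) (w : G → ℤ), 2 ^ 500 ≤ κ →
  #(univ.filter fun x : G => x + x = 0) ≤ 4 → Strip2 V H H' w κ → V₂ ⊆ V → 8 * κ ≤ 10 * #V₂ →
  (∀ Z ⊆ V₂, 2 ^ 114 * #(V₂ \ Z) ≤ κ → Lg w (2 ^ 86) Z = L) →
  ∃ R ⊆ V₂, 2 ^ 210 * #R ≤ κ ∧ Cov R (dbl L)

/-- [OE bs22] (Compare `OD/P/bs2.lean`.) PROOF. `s = 2^86`, `L = Lg w s V₂ ≤ H'` (`Strip2.ker`), `|L| ≤ 2^85 κ`. Apply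
`S_cov2` with `Y = V₂`, `b = κ / 2^114`, `c = κ / 2^90` (divisions with remainder), `m = 2^180`. For `U` with
`#U ≤ b` put `Z = V₂ \ U`, and let `C` be the (finite) set of all `v` of the form `∑ P - ∑ N` with
`P, N ⊆ Z` disjoint, `#P + #N ≤ s`, equal sums of `w`. `closure C = Lg w s Z = L`; `v ∈ SG (P ∪ N)`
(`sub_mem_SG`); by `S_dif` (`K = 2^85`, `#Z ≥ κ / 2`) `C` has at least `(κ / 2) / (2^86 + 1) ≥ κ / 2^88`
elements, so `{2 v | v ∈ C}` at least `κ / 2^90`. `16 |dbl L| ≤ 16 |L| ≤ 2^89 κ ≤ c m` because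
`2 c ≥ κ / 2^90`. Finally `(m + 4 log₂ |L| + 8) s ≤ (2^180 + 4 (86 + log₂ κ) + 8) 2^86 ≤ κ / 2^210 ≤ b` as
`κ ≥ 2^500`. -/
def S_bs22 : Prop := S_ols → S_cov2 → S_dif → C_bs22

/-- [OE fin22] (Compare `OD/P/fin2.lean`; here `M` plays the role of `2 L`.) PROOF. Let `X = A \ (R ∪ E)`. A state of level `j` is a set
`W ⊆ X` with `#W ≡ #W₀` mod `2` such that there are `z ∈ SG W` and an integer `k` with `|k| ≤ j m` and
`r + z + 2 k e ∈ M`. (a) If `W` is a state of level `j` and `C = X \ W` satisfies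
`(m + 1) 2 ^ #C > 2 |G/M|` then there is a state `W'` of level `j + 1` with `W ⊆ W'`, `#W' ≥ #W + 2`: two
different pairs `(k₁, S₁) ≠ (k₂, S₂)`, `0 ≤ k_i ≤ m`, `S_i ⊆ C`, have the same image under
`(k, S) ↦ (2 k e + ∑ S mod M, #S mod 2)`. If `S₁ = S₂` then `2 (k₁ - k₂) e ∈ M`, `0 < |k₁ - k₂| ≤ m`,
contradiction to the hypothesis on `e`. So `D = (S₁ \ S₂) ∪ (S₂ \ S₁)` is not empty, of even size, and
`∑ S₁ - ∑ S₂ ∈ SG D`. Take `W' = W ∪ D`, `z' = z + ∑ S₁ - ∑ S₂`, `k' = k + k₁ - k₂`. (b) In the same way (with all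
`k_i = 0`): if `W` is a state of level `0` of maximal size, then `2 ^ #(X \ W) ≤ 2 |G/M| ≤ 2 |G|`, so
`#(X \ W) ≤ log₂ |G| + 1`. (c) Starting with this `W` (`W₀` is a state of level `0`) and using (a)
repeatedly, we get, for some `j ≤ log₂ |G| + 1`, a state `W` of level `j` with
`(m + 1) 2 ^ #C ≤ 2 |G/M|`. Multiply by `|M|`: `κ 2 ^ #C ≤ (m + 1) |M| 2 ^ #C ≤ 2 h κ`, so
`2 ^ #C ≤ 2 h < 2 ^ (t + 2)`, `#C ≤ t + 1`. (d) `T = #R + #E + #W = #A - #C ≥ κ - 1`. `T` is even and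
`κ` is even, so `T ≥ κ`; let `T - κ = x`, an even number, at most `t + 2`. Let `E' ⊆ E` with
`#E' = #E - x ≥ 2 m (log₂ |G| + 2) ≥ 2 |k|`, even. By `S_sge` (with `L = M`) there is `v ∈ SG E'` with
`v - 2 k e ∈ M`; so `r + z + v ∈ M`, `y = - (r + z + v) ∈ M`, `r + y ∈ SG R`, and
`0 = z + v + (r + y) ∈ SG (W ∪ E' ∪ R)`, a set of `κ` elements. -/
def S_fin22 : Prop := S_sge → ∀ (G : Type) [AddCommGroup G] [Fintype G] [DecidableEq G]
  (κ h t : ℕ), HypE G κ h t → ∀ (A R E W₀ : Finset G) (M : AddSubgroup G) (e r : G) (m : ℕ),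
  κ + t ≤ #A → #A ≤ κ + t + 2 → R ⊆ A → E ⊆ A → W₀ ⊆ A → Disjoint R E → Disjoint R W₀ →
  Disjoint E W₀ → (∀ z ∈ M, r + z ∈ SG R) → (∀ a ∈ E, a - e ∈ M ∨ a + e ∈ M) →
  κ ≤ (m + 1) * Nat.card M → (∀ k : ℕ, 0 < k → k ≤ m → (2 * k) • e ∉ M) → Even #E →
  2 * (t + 2 + m * (Nat.log 2 (Nat.card G) + 2)) ≤ #E → Even (#R + #W₀) →
  (∃ z ∈ SG W₀, r + z ∈ M) → Sol A κ

/-- [OE prt2] Partners. PROOF. Claim, by induction on `R' ⊆ R`: there is `W' ⊆ V \ (R ∪ F)` with `#W' = #R'` such that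
for all `r' ∈ SG R'` there is `z ∈ SG W'` with `r' + z ∈ M`. For `R' = ∅` take `W' = ∅`, `z = 0` (`SG_empty`). For `R' ∪ {a}`:
the set `S` of `a` has at least `2 #R + #F + 1` elements, so it contains `a'` outside of `R ∪ F ∪ W'`; take
`W' ∪ {a'}`; an element of `SG (R' ∪ {a})` is `r' + a` or `r' - a` (`mem_SG_union`, `mem_SG_single`); take
`z - a'` resp. `z + a'`. -/
def S_prt2 : Prop := ∀ (G : Type) [AddCommGroup G] [DecidableEq G] (M : AddSubgroup G)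
  (V R F : Finset G) (r : G), R ⊆ V → r ∈ SG R →
  (∀ a ∈ R, ∃ S ⊆ V, 2 * #R + #F + 1 ≤ #S ∧ ∀ x ∈ S, x - a ∈ M) →
  ∃ W ⊆ V \ (R ∪ F), #W = #R ∧ ∃ z ∈ SG W, r + z ∈ M

/-- [OE asm2] Assembly of the strip case. PROOF. `#V ≥ 98 κ / 100 - 1 ≥ 9 κ / 10`. `C_bs12`: `V₁`; `L = Lg w (2^86) V₁`. `S_bs42`: `V₂ ⊆ V₁`.
`2^12 #(V \ V₂) ≤ κ`, so `closure V₂ = H`. If `Z ⊆ V₂` and `2^114 #(V₂ \ Z) ≤ κ` then `2^112 #(V₁ \ Z) ≤ κ`, so
`Lg w (2^86) Z = L`. `L ≤ H'` (`Strip2.ker`; `n = 1` on `P`, `-1` on `N`). `C_bs22`: `R ⊆ V₂`, `r ∈ SG R`. Let `M = dbl L`;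
`|L| ≤ 4 |M|` (`card_le_dbl'`). (i) There is `a ∈ V₁` with `w a ≠ 0`: otherwise by `Strip2.ker` all of `V₁` is in `H'`, and
`H ≤ H'`, `κ² / 20000 < |H| ≤ 2^85 κ`, impossible. `S_bs3` for `V₁`, `K = 2^85`, `L`: `g`, `y`. (ii) There is
`a₁ ∈ V₂` with `y a₁ ≠ 0`: otherwise all `a ∈ V₂` are in `L`, `H ≤ L ≤ H'`, impossible as before. (iii) Let `o` be the
least positive number with `o g ∈ L`. `H ≤ L ⊔ ⟨g⟩` (`V₂` generates `H`), so `κ² / 20000 < |H| ≤ o |L| ≤ o 2^85 κ` and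
`o > κ / 2^100`; `k g ∈ L` implies `o ∣ k` for integers `k`. Put `e = a₁`, `m = 2^90`. For `0 < k ≤ m`:
`2 k a₁ ∈ M ≤ L` would give `2 k (y a₁) g ∈ L`, `0 < |2 k (y a₁)| ≤ 2^176 < o`, contradiction. (iv) `κ ≤ (m + 1) |M|`: `S_dif` for
`V₁` gives at least `#V₁ / (2^86 + 1) ≥ κ / 2^88` elements of `L`. (v) Let `S ⊆ V₂` be the set for `a₁` from `S_bs42`; choose
`E ⊆ S \ R` with `#E = 2 (t + 2 + m (log₂ |G| + 2)) ≤ κ / 2^210` (`log₂ |G| ≤ 2 log₂ κ`, `κ ≥ 2^500`); `x - e ∈ M` for `x ∈ E`. (vi)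
`S_prt2` with `V = V₂`, `F = E` (`2 #R + #E + 1 ≤ κ / 2^202`) gives `W₀` with `#R + #W₀ = 2 #R` even. (vii) `S_fin22`. -/
def S_asm2 : Prop := C_bs12 → S_bs42 → C_bs22 → S_dif → S_bs3 → S_sge → S_fin22 → S_prt2 →
  ∀ (G : Type) [AddCommGroup G] [Fintype G] [DecidableEq G] (κ h t : ℕ), HypE G κ h t →
  2 ^ 500 ≤ κ → ∀ (A V : Finset G) (H H' : AddSubgroup G) (w : G → ℤ), κ + t ≤ #A →
  #A ≤ κ + t + 2 → V ⊆ A → 50 * #(A \ V) ≤ κ → Strip2 V H H' w κ → Sol A κ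

/-! ## D. Lower bounds -/

/-- [OE eta4] PROOF. `d = |dbl K| = κ / 2`, and `K / dbl K` has four elements, `2 v = 0` for all `v`, so it is `C_2²`; let `a, b ∈ K`
represent two different nonzero classes; `a + b` represents the third one. Each of the cosets `a + dbl K`,
`b + dbl K`, `a + b + dbl K` has `d` elements. Choose `n₁, n₂, n₃` odd, at most `d`, with the sum `κ + 1 = 2 d + 1`:
`d, d, 1` if `d` is odd, `d - 1, d - 1, 3` if `d` is even (`d ≥ 4`). Let `T` be the union of sets of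
`n₁`, `n₂`, `n₃` elements of the three cosets, `#T = κ + 1`. `∑_T x ≡ n₁ a + n₂ b + n₃ (a + b) ≡ 0` modulo `dbl K`, since
`n₁ + n₃` and `n₂ + n₃` are even. A subset `B ⊆ T` with `κ` elements is `T \ {x}` with the sum `≡ - x`, not in
`dbl K`. `le_eta`. -/
def S_eta4 : Prop := ∀ (G : Type) [AddCommGroup G] [Fintype G] (K : AddSubgroup G) (κ : ℕ),
  Nat.card K = 4 * Nat.card (dbl K) → Nat.card K = 2 * κ → 8 ≤ κ → κ + 1 ≤ eta K κ

/-- [OE low4] PROOF. `κ` is the exponent of `G`. As in `OD/P/low.lean` (`low_surj`) there is a surjective homomorphism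
`ψ : G → ZMod κ` (`S_chr`), `|ker ψ| = h`. `h` is even: if `h` were odd then no `x ≠ 0` with `2 x = 0` would be in
`ker ψ`, so `ψ` would be injective on the four elements `x` with `2 x = 0` (a group), but `ZMod κ` has at most two such elements. Let
`φ : G → ZMod h` be the composition with `ZMod κ → ZMod h`, surjective, and `K` the kernel of the composition with
`ZMod h → ZMod (h / 2)`: index `h / 2`, so `|K| = 2 κ`. `K` contains all `x` with `2 x = 0`: `φ x` is killed by `2` in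
`ZMod h`, so it is `0` or `h / 2` and is mapped to `0` in `ZMod (h / 2)`. The map `x ↦ 2 x` from `K` onto `dbl K` has the kernel
`{x | 2 x = 0}` with four elements, so `|K| = 4 |dbl K|`. `log₂ (h / 2) ≤ dis (G ⧸ K)`: as `low_dis` in `OD/P/low.lean`, or by
`log_le_dis` in `Explicit.lean` with `d = h / 2` and `g` with `φ g = 1`. -/
def S_low4 : Prop := S_chr → ∀ (G : Type) [AddCommGroup G] [Fintype G] [DecidableEq G] (h : ℕ),
  Nat.card G = h * AddMonoid.exponent G → h ∣ AddMonoid.exponent G →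
  #(univ.filter fun x : G => x + x = 0) = 4 →
  Even h ∧ ∃ K : AddSubgroup G, Nat.card K = 2 * AddMonoid.exponent G ∧
    Nat.card K = 4 * Nat.card (dbl K) ∧ Nat.log 2 (h / 2) ≤ dis (G ⧸ K)

/-- [OE low2] PROOF. As in `OD/P/low.lean`: the kernel `K` of a surjective homomorphism `G → ZMod κ → ZMod h`. -/
def S_low2 : Prop := S_chr → ∀ (G : Type) [AddCommGroup G] [Fintype G] (h : ℕ),
  Nat.card G = h * AddMonoid.exponent G → h ∣ AddMonoid.exponent G →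
  ∃ K : AddSubgroup G, Nat.card K = AddMonoid.exponent G ∧ Nat.log 2 h ≤ dis (G ⧸ K)

end Pool.Agent.Lib.MP_8ac08c_co.OE
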